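import Pool.Agent.helper60.MW.Spec

/-!
# Moser's worm problem without convexity, row mw:SUM: sum over all choices of the measure of `Fail`
-/

set_option autoImplicit false

namespace Pool.Agent.MW

open MeasureTheory Set Pool.Agent.helper17.Worm

open Classical in
theorem SUM_card {ι : Type} [Fintype ι] {X : Set ℂ} (p : ι → ℂ) (a b s t : ℝ) (B k q : ℕ)
    (g : ℝ × ℂ) (h : ¬ B ≤ nbad X g p a s) :
    (Finset.univ.filter (fun S : ι × Fin k → Fin q × Fin q => g ∈ Fail X p a b s t B S)).card = 0 := by
  rw [Finset.card_eq_zero, Finset.filter_eq_empty_iff]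
  intro S _ hS
  exact h hS.1

open Classical in
theorem SUM_card' {ι : Type} [Fintype ι] {X : Set ℂ} (p : ι → ℂ) (a b s t : ℝ) (B k q : ℕ)
    (g : ℝ × ℂ) (h : B ≤ nbad X g p a s) :
    (Finset.univ.filter (fun S : ι × Fin k → Fin q × Fin q => g ∈ Fail X p a b s t B S)).card =
      nfull X g p b t k q := by
  unfold nfull
  refine congrArg Finset.card (Finset.filter_congr fun S _ => ?_)
  exact ⟨fun h' => h'.2, fun h' => ⟨h, h'⟩⟩

open Classical in
/-- **SUM** -/
theorem SUM (hCNT : CNT_stmt) (hMFL : MFL_stmt) : SUM_stmt := by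
  intro ι _ X hX hX1 k q B p a b s t α β hk hq hB hb ha hs ht hst hαβ
  have hfin : volume X ≠ ⊤ := ne_top_of_le_ne_top ENNReal.one_ne_top hX1
  have hq' : (0 : ℝ) < q := by exact_mod_cast hq
  have ha0 : 0 < a := by rw [ha]; positivity
  have hF : ∀ S : ι × Fin k → Fin q × Fin q, MeasurableSet (Fail X p a b s t B S) :=
    fun S => hMFL ι X hX k q B p a b s t S
  have h1 : ∑ S : ι × Fin k → Fin q × Fin q, muG α β (Fail X p a b s t B S) =
      ∫⁻ g, ∑ S : ι × Fin k → Fin q × Fin q,
        (Fail X p a b s t B S).indicator (fun _ => (1 : ENNReal)) g ∂(muG α β) := by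
    rw [lintegral_finsetSum _ (fun S _ => measurable_const.indicator (hF S))]
    refine Finset.sum_congr rfl fun S _ => ?_
    rw [lintegral_indicator (hF S), setLIntegral_const, one_mul]
  let c : ℝ := (q : ℝ) ^ (2 * (Fintype.card ι * k)) *
    ((s / t) ^ (B * k - 1) * (1 / t) * (1 / a ^ 2))
  have hc : 0 ≤ c := by
    have : 0 ≤ s / t := div_nonneg hs ht.le
    positivity
  have h2 : ∀ g, ∑ S : ι × Fin k → Fin q × Fin q,
      (Fail X p a b s t B S).indicator (fun _ => (1 : ENNReal)) g ≤
      ENNReal.ofReal c * ∑ i, volume (sq (p i) a ∩ mv g ⁻¹' X) := by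
    intro g
    have h3 : ∑ S : ι × Fin k → Fin q × Fin q,
        (Fail X p a b s t B S).indicator (fun _ => (1 : ENNReal)) g =
        ((Finset.univ.filter (fun S : ι × Fin k → Fin q × Fin q =>
          g ∈ Fail X p a b s t B S)).card : ENNReal) := by
      rw [Finset.card_filter, Nat.cast_sum]
      refine Finset.sum_congr rfl fun S _ => ?_
      by_cases h : g ∈ Fail X p a b s t B S <;> simp [h]
    rw [h3]
    have h5 : ENNReal.ofReal (c * ∑ i, occ X g (sq (p i) a)) =
        ENNReal.ofReal c * ∑ i, volume (sq (p i) a ∩ mv g ⁻¹' X) := by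
      rw [ENNReal.ofReal_mul hc, ENNReal.ofReal_sum_of_nonneg (fun i _ => occ_nonneg _ _ _)]
      congr 1
      refine Finset.sum_congr rfl fun i _ => ?_
      unfold occ
      rw [measureReal_def, ENNReal.ofReal_toReal (occ_finite hX hfin g _)]
    by_cases hn : B ≤ nbad X g p a s
    · rw [SUM_card' p a b s t B k q g hn, ← ENNReal.ofReal_natCast, ← h5]
      have h4 := hCNT ι X hX hfin g k q B p a b s t hk hq hB hb ha hs ht hst hn
      refine ENNReal.ofReal_le_ofReal (h4.trans (le_of_eq ?_))
      simp only [c]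
      ring
    · rw [SUM_card p a b s t B k q g hn, Nat.cast_zero]
      exact zero_le
  have h6 : ∑ S : ι × Fin k → Fin q × Fin q, muG α β (Fail X p a b s t B S) ≤
      ENNReal.ofReal c * ∑ _i : ι,
        (ENNReal.ofReal (β - α) * (ENNReal.ofReal (a * a) * 1)) := by
    rw [h1]
    refine (lintegral_mono h2).trans ?_
    unfold sq
    rw [lintegral_const_mul _ (Finset.measurable_sum _ fun i _ =>
      measurable_occ hX (measurableSet_rc _ _ _ _)),
      lintegral_finsetSum _ (fun i _ => measurable_occ hX (measurableSet_rc _ _ _ _))]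
    refine mul_le_mul_right (Finset.sum_le_sum fun i _ => ?_) _
    rw [lintegral_muG hX (measurableSet_rc _ _ _ _), volume_rc ha0.le ha0.le]
    gcongr
  refine h6.trans (le_of_eq ?_)
  rw [Finset.sum_const, Finset.card_univ, nsmul_eq_mul, mul_one, ← ENNReal.ofReal_natCast,
    ← ENNReal.ofReal_mul (by linarith), ← ENNReal.ofReal_mul (by positivity),
    ← ENNReal.ofReal_mul hc]
  congr 1
  simp only [c]
  field_simp

end Pool.Agent.MW
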