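import Pool.Agent.helper60.MW.SpecC

/-!
# Moser's worm problem without convexity, row mw:SCX: explicit choice of the scale
-/

set_option autoImplicit false

namespace Pool.Agent.MW

open MeasureTheory Set Pool.Agent.helper17.Worm

theorem SCX_lin (b : ℕ) (h : 8 ≤ b) : 6 * b + 6 ≤ 2 ^ b := by
  induction b, h using Nat.le_induction with
  | base => norm_num
  | succ n hn ih => rw [pow_succ]; omega

theorem SCX_tel (E : ℕ → ℝ) (N : ℕ) :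
    ∑ b ∈ Finset.range N, (E (2 ^ (b + 1)) - E (2 ^ b)) = E (2 ^ N) - E 1 := by
  induction N with
  | zero => simp
  | succ n ih => rw [Finset.sum_range_succ, ih]; ring

theorem SCX_k (k : ℕ) : (k : ℝ) ≤ 2 ^ k := by
  exact_mod_cast (Nat.lt_two_pow_self (n := k)).le

/-- the inequality for `K` -/
theorem SCX_log (k b n : ℕ) (hb : 8 ≤ b) (hn : n ≤ 2 ^ (b + 1)) :
    64 / (1 / (2 : ℝ) ^ (k + 7)) * (4 * Real.log (1 / ((2 : ℝ) ^ (k + 10) / 2 ^ n)) +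
      5 * Real.log (1 / (1 / (2 : ℝ) ^ (k + 7))) + 40) ≤ ((2 ^ (2 * k + 20 + b) : ℕ) : ℝ) := by
  have hl : Real.log 2 ≤ 0.7 := by
    have := Real.log_two_lt_d9
    linarith
  have hl0 : 0 < Real.log 2 := Real.log_pos (by norm_num)
  have h1 : Real.log (1 / ((2 : ℝ) ^ (k + 10) / 2 ^ n)) ≤ 2 * 2 ^ b * Real.log 2 := by
    rw [one_div_div, Real.log_div (by positivity) (by positivity), Real.log_pow, Real.log_pow]
    have h2 : (n : ℝ) ≤ 2 * 2 ^ b := by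
      have : (n : ℝ) ≤ ((2 ^ (b + 1) : ℕ) : ℝ) := by exact_mod_cast hn
      rw [Nat.cast_pow, pow_succ] at this
      push_cast at this
      linarith
    have h3 : 0 ≤ ((k + 10 : ℕ) : ℝ) * Real.log 2 := by positivity
    nlinarith [mul_le_mul_of_nonneg_right h2 hl0.le]
  have h4 : Real.log (1 / (1 / (2 : ℝ) ^ (k + 7))) = (k + 7) * Real.log 2 := by
    rw [one_div_one_div, Real.log_pow]
    push_cast
    ring
  rw [h4]
  have hk := SCX_k k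
  have hk1 : (1 : ℝ) ≤ 2 ^ k := one_le_pow₀ (by norm_num)
  have hv : (256 : ℝ) ≤ 2 ^ b := by
    calc (256 : ℝ) = 2 ^ 8 := by norm_num
      _ ≤ 2 ^ b := pow_le_pow_right₀ (by norm_num) hb
  have h5 : 4 * Real.log (1 / ((2 : ℝ) ^ (k + 10) / 2 ^ n)) + 5 * ((k + 7) * Real.log 2) + 40 ≤
      128 * (2 ^ k * 2 ^ b) := by
    have h6 : 2 * 2 ^ b * Real.log 2 ≤ 2 * 2 ^ b * 0.7 := by
      gcongr
    have h7 : ((k : ℝ) + 7) * Real.log 2 ≤ (k + 7) * 0.7 := by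
      gcongr
    have h8 : (2 : ℝ) ^ b ≤ 2 ^ k * 2 ^ b := by
      calc (2 : ℝ) ^ b = 1 * 2 ^ b := by ring
        _ ≤ 2 ^ k * 2 ^ b := by gcongr
    have h9 : (2 : ℝ) ^ k ≤ 2 ^ k * 2 ^ b := by
      calc (2 : ℝ) ^ k = 2 ^ k * 1 := by ring
        _ ≤ 2 ^ k * 2 ^ b := by gcongr; linarith
    linarith
  have e1 : 64 / (1 / (2 : ℝ) ^ (k + 7)) = 2 ^ 13 * 2 ^ k := by
    rw [div_div_eq_mul_div, div_one, pow_add]
    norm_num
    ring
  have e2 : ((2 ^ (2 * k + 20 + b) : ℕ) : ℝ) = 2 ^ 13 * 2 ^ k * (128 * (2 ^ k * 2 ^ b)) := by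
    push_cast
    rw [pow_add, pow_add, pow_mul]
    have : ((2 : ℝ) ^ 2) ^ k = 2 ^ k * 2 ^ k := by
      rw [← pow_mul, mul_comm, pow_mul, pow_two]
    rw [this]
    norm_num
    ring
  rw [e1, e2]
  gcongr

theorem SCX_a (u v Y : ℝ) (hu : 1 ≤ u) (hv : 256 ≤ v) (hY : 1 ≤ Y) :
    1024 * u * 1000 * (2 * u) ≤ 2 ^ 46 * (u ^ 5 * v * Y) := by
  have h3 : 1 ≤ u ^ 3 := one_le_pow₀ hu
  have h4 : 1 ≤ u ^ 3 * v := by nlinarith
  have h1 : 1 ≤ u ^ 3 * v * Y := by nlinarith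
  have h2 : 0 ≤ u ^ 2 := by positivity
  calc 1024 * u * 1000 * (2 * u) = 2048000 * (u ^ 2 * 1) := by ring
    _ ≤ 2 ^ 46 * (u ^ 2 * (u ^ 3 * v * Y)) := by
        gcongr
        norm_num
    _ = _ := by ring

theorem SCX_b (u v : ℝ) (hu : 0 < u) (hv : 0 < v) :
    192 * 2 ^ 31 * (u ^ 4 * v) * (128 * u) ≤ 1 * (2 ^ 46 * (u ^ 5 * v)) := by
  have h : 0 < u ^ 5 * v := by positivity
  calc 192 * 2 ^ 31 * (u ^ 4 * v) * (128 * u) = (192 * 2 ^ 31 * 128) * (u ^ 5 * v) := by ring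
    _ ≤ 2 ^ 46 * (u ^ 5 * v) := by
        gcongr
        norm_num
    _ = _ := by ring

theorem SCX_c (u v : ℝ) : (576 * 2 ^ 31 * (u ^ 4 * v)) ^ 2 ≤ 2 ^ 73 * (u ^ 8 * v) * (2 ^ 8 * v) := by
  have h : 0 ≤ u ^ 8 * v ^ 2 := by positivity
  calc (576 * 2 ^ 31 * (u ^ 4 * v)) ^ 2 = (576 ^ 2 * 2 ^ 62) * (u ^ 8 * v ^ 2) := by ring
    _ ≤ 2 ^ 81 * (u ^ 8 * v ^ 2) := by
        gcongr
        norm_num
    _ = _ := by ring

theorem SCX_d (u v : ℝ) (hu : 1 ≤ u) (hv : 256 ≤ v) : 1 ≤ u ^ 4 * v := by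
  have h : 1 ≤ u ^ 4 := one_le_pow₀ hu
  nlinarith

theorem SCX_e (x : ℝ) (h : 1 ≤ x) : 1 + 2 * (192 * 2 ^ 31 * x) ≤ 576 * 2 ^ 31 * x := by
  linarith

/-- **SCX** -/
theorem SCX (hHRX : HRX_stmt) (hBLK : BLK_stmt) : SCX_stmt := by
  intro k E hE hE1
  have hd : ∀ b, 0 ≤ E (2 ^ (b + 1)) - E (2 ^ b) := fun b =>
    sub_nonneg.2 (hE (Nat.pow_le_pow_right (by norm_num) (Nat.le_succ b)))
  obtain ⟨b, hb1, hb2, hb3⟩ := hHRX k (fun b => E (2 ^ (b + 1)) - E (2 ^ b)) hd (by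
    rw [SCX_tel]
    have h1 := (hE1 (2 ^ (2 ^ (2 ^ (10 * k + 100))))).2
    have h2 := (hE1 1).1
    linarith)
  have hb8 : 8 ≤ b := by omega
  have hr : b + (5 * k + 46) ≤ 2 ^ b := by
    have := SCX_lin b hb8
    omega
  obtain ⟨L, hL1, hL2, hL3⟩ := hBLK E b (b + (5 * k + 46)) hE (by omega) hr
  set e : ℝ := E (2 ^ (b + 1)) - E (2 ^ b) with he
  have he0 : 0 ≤ e := hd b
  set r : ℕ := b + (5 * k + 46) with hrdef
  have hrc : (r : ℝ) = (b : ℝ) + (5 * k + 46) := by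
    rw [hrdef]
    push_cast
    ring
  have hdE : 0 ≤ E (L + r) - E L := sub_nonneg.2 (hE (Nat.le_add_right L r))
  -- the variables
  set u : ℝ := 2 ^ k with hu
  set v : ℝ := 2 ^ b with hv
  set Y : ℝ := 2 ^ L with hY
  have hu1 : 1 ≤ u := one_le_pow₀ (by norm_num)
  have hv1 : 256 ≤ v := by
    calc (256 : ℝ) = 2 ^ 8 := by norm_num
      _ ≤ 2 ^ b := pow_le_pow_right₀ (by norm_num) hb8
  have hu0 : 0 < u := by linarith
  have hv0 : 0 < v := by linarith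
  have hY0 : 0 < Y := by positivity
  have hY1 : 1 ≤ Y := one_le_pow₀ (by norm_num)
  have e7 : (2 : ℝ) ^ (k + 7) = 128 * u := by rw [pow_add]; norm_num; ring
  have e1 : (2 : ℝ) ^ (k + 1) = 2 * u := by rw [pow_add]; norm_num; ring
  have e10 : (2 : ℝ) ^ (k + 10) = 1024 * u := by rw [pow_add]; norm_num; ring
  have eX : (2 : ℝ) ^ (L + r) = 2 ^ 46 * (u ^ 5 * v * Y) := by
    rw [hrdef, pow_add, pow_add, pow_add, pow_mul, hu, hv, hY, ← pow_mul, ← pow_mul, mul_comm 5 k]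
    ring
  have eK : ((2 ^ (2 * k + 20 + b) : ℕ) : ℝ) = 2 ^ 20 * (u ^ 2 * v) := by
    push_cast
    rw [pow_add, pow_add, hu, hv, ← pow_mul, mul_comm 2 k]
    ring
  have e81 : (2 : ℝ) ^ (9 * k + 81) = 2 ^ 81 * u ^ 9 := by
    rw [pow_add, hu, ← pow_mul, mul_comm 9 k]
    ring
  have hX0 : (0 : ℝ) < 2 ^ (L + r) := by positivity
  have hW : (8 : ℝ) * ((2 ^ (2 * k + 20 + b) : ℕ) : ℝ) *
      (24 * ((2 : ℝ) ^ (k + 10) / 2 ^ (L + r)) / (1 / 2 ^ (k + 1))) * 2 ^ (L + r) =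
      192 * 2 ^ 31 * (u ^ 4 * v) := by
    rw [eK, e10, e1]
    field_simp
    ring
  refine ⟨L, r, 2 ^ (2 * k + 20 + b), 2 ^ (k + 10) / 2 ^ (L + r),
    8 * ((2 ^ (2 * k + 20 + b) : ℕ) : ℝ) *
      (24 * ((2 : ℝ) ^ (k + 10) / 2 ^ (L + r)) / (1 / 2 ^ (k + 1))), ?_, ?_, ?_, ?_, ?_⟩
  · refine hL2.trans ?_
    unfold LL
    exact Nat.pow_le_pow_right (by norm_num) hb2
  · refine ⟨by positivity, ?_, by positivity, ?_, by positivity, ?_, ?_, ?_, ?_, le_refl _⟩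
    · rw [e7]
      refine one_div_le_one_div_of_le (by norm_num) ?_
      linarith
    · rw [e1, div_le_one (by positivity)]
      linarith
    · rw [e10, e1, eX, div_le_div_iff₀ (by positivity) (by norm_num), one_div, ← div_eq_inv_mul,
        le_div_iff₀ (by positivity)]
      exact SCX_a u v Y hu1 hv1 hY1
    · rw [e7, e10]
      refine le_of_eq ?_
      field_simp
      norm_num
    · exact Nat.one_le_two_pow
    · exact SCX_log k b (L + r) hb8 hL2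
  · positivity
  · -- W 2^L
    have hX : (2 : ℝ) ^ (L + r) = (2 ^ 46 * (u ^ 5 * v)) * 2 ^ L := by rw [eX, hY]; ring
    have h1 : 8 * ((2 ^ (2 * k + 20 + b) : ℕ) : ℝ) *
      (24 * ((2 : ℝ) ^ (k + 10) / 2 ^ (L + r)) / (1 / 2 ^ (k + 1))) * 2 ^ L *
        (2 ^ 46 * (u ^ 5 * v)) = 192 * 2 ^ 31 * (u ^ 4 * v) := by
      rw [← hW, hX]
      ring
    rw [e7, le_div_iff₀ (by positivity)]
    have h2 : (0 : ℝ) < 2 ^ 46 * (u ^ 5 * v) := by positivity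
    rw [← mul_le_mul_iff_left₀ h2]
    calc _ = 8 * ((2 ^ (2 * k + 20 + b) : ℕ) : ℝ) *
      (24 * ((2 : ℝ) ^ (k + 10) / 2 ^ (L + r)) / (1 / 2 ^ (k + 1))) * 2 ^ L *
        (2 ^ 46 * (u ^ 5 * v)) * (128 * u) := by ring
      _ = 192 * 2 ^ 31 * (u ^ 4 * v) * (128 * u) := by rw [h1]
      _ ≤ _ := SCX_b u v hu0 hv0
  · set w : ℝ := 8 * ((2 ^ (2 * k + 20 + b) : ℕ) : ℝ) *
      (24 * ((2 : ℝ) ^ (k + 10) / 2 ^ (L + r)) / (1 / 2 ^ (k + 1))) with hw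
    have h1 : 1 + 2 * w * 2 ^ (L + r) ≤ 576 * 2 ^ 31 * (u ^ 4 * v) := by
      have h2 : 1 ≤ u ^ 4 * v := SCX_d u v hu1 hv1
      have h2' : 2 * w * 2 ^ (L + r) = 2 * (192 * 2 ^ 31 * (u ^ 4 * v)) := by
        rw [← hW]
        ring
      rw [h2']
      exact SCX_e _ h2
    have h0 : 0 ≤ 1 + 2 * w * 2 ^ (L + r) := by positivity
    have h3 : (1 + 2 * w * 2 ^ (L + r)) ^ 2 ≤ (576 * 2 ^ 31 * (u ^ 4 * v)) ^ 2 :=
      pow_le_pow_left₀ h0 h1 2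
    have h4 : 4 * (1 / (2 : ℝ) ^ (k + 7)) ^ 2 * ((2 ^ (2 * k + 20 + b) : ℕ) : ℝ) = 2 ^ 8 * v := by
      rw [e7, eK]
      field_simp
      norm_num
    rw [h4, e7]
    have h5 : (1 + 2 * w * 2 ^ (L + r)) ^ 2 / (2 ^ 8 * v) ≤ 2 ^ 73 * (u ^ 8 * v) := by
      rw [div_le_iff₀ (by positivity)]
      exact h3.trans (SCX_c u v)
    have h6 : (E (L + r) - E L) * v ≤ 2 * (b + (5 * k + 46)) * e := by
      have := hL3
      rw [hrc] at this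
      exact this
    have h7 : 2 ^ 81 * u ^ 9 * ((b : ℝ) + (5 * k + 46)) * e ≤ 1 := by
      have := hb3
      rw [e81] at this
      exact this
    rw [le_div_iff₀ (by positivity)]
    calc (1 + 2 * w * 2 ^ (L + r)) ^ 2 / (2 ^ 8 * v) * (E (L + r) - E L) * (128 * u)
        ≤ 2 ^ 73 * (u ^ 8 * v) * (E (L + r) - E L) * (128 * u) := by gcongr
      _ = 2 ^ 80 * u ^ 9 * ((E (L + r) - E L) * v) := by ring
      _ ≤ 2 ^ 80 * u ^ 9 * (2 * (b + (5 * k + 46)) * e) := by gcongr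
      _ = 2 ^ 81 * u ^ 9 * ((b : ℝ) + (5 * k + 46)) * e := by ring
      _ ≤ 1 := h7

end Pool.Agent.MW
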