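import Pool.Agent.helper70.MW.Width

/-!
# The case of the origin: a symmetrization which is not translation invariant
-/

set_option autoImplicit false
set_option linter.unusedSectionVars false
set_option linter.unusedVariables false

open MeasureTheory Metric Set Module
open scoped RealInnerProductSpace Pointwise

namespace Pool.Agent.helper70.MW

variable {E : Type*} [NormedAddCommGroup E] [InnerProductSpace ℝ E] [FiniteDimensional ℝ E]
  [MeasurableSpace E] [BorelSpace E]

/-- The closed convex hull of `K ∪ (-K) ∪ (K - K)`. -/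
def zset (K : Set E) : Set E := hull (K ∪ -K ∪ (K + -K))

/-- The example. -/
noncomputable def csym (K : Set E) : Set E := (ballWidth K / ballWidth (zset K)) • zset K

theorem zset_aux {K : Set E} (hK : IsConvexCompact K) :
    (K ∪ -K ∪ (K + -K)).Nonempty ∧ IsCompact (K ∪ -K ∪ (K + -K)) :=
  ⟨(hK.1.mono subset_union_left).mono subset_union_left,
    (hK.2.1.union hK.2.1.neg).union (hK.2.1.add hK.2.1.neg)⟩

theorem zset_cc {K : Set E} (hK : IsConvexCompact K) : IsConvexCompact (zset K) :=
  hull_convexCompact (zset_aux hK).1 (zset_aux hK).2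

theorem supp_zset {K : Set E} (hK : IsConvexCompact K) (u : E) :
    supportFn (zset K) u = max (max (supportFn K u) (supportFn K (-u)))
      (supportFn K u + supportFn K (-u)) := by
  rw [zset, supp_hull (zset_aux hK).1 (zset_aux hK).2 (zset_cc hK).2.1,
    supp_union (hK.1.mono subset_union_left) (hK.2.1.union hK.2.1.neg) (hK.1.add hK.1.neg)
      (hK.2.1.add hK.2.1.neg), supp_union hK.1 hK.2.1 hK.1.neg hK.2.1.neg,
    supp_add_set hK.1 hK.2.1 hK.1.neg hK.2.1.neg, supp_neg_set]

theorem supp_add_neg_nonneg {K : Set E} (hK : IsConvexCompact K) (u : E) :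
    0 ≤ supportFn K u + supportFn K (-u) := by
  have := supp_add_le hK.1 hK.2.1 u (-u)
  rw [add_neg_cancel, supp_zero hK.1 hK.2.1] at this
  exact this

/-- The excess. -/
noncomputable def exc (K : Set E) (u : E) : ℝ :=
  max 0 (max (-supportFn K u) (-supportFn K (-u)))

theorem supp_zset' {K : Set E} (hK : IsConvexCompact K) (u : E) :
    supportFn (zset K) u = supportFn K u + supportFn K (-u) + exc K u := by
  rw [supp_zset hK, exc]
  rcases le_total (supportFn K u) 0 with h1 | h1 <;>
  rcases le_total (supportFn K (-u)) 0 with h2 | h2 <;>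
  rcases le_total (supportFn K u) (supportFn K (-u)) with h3 | h3 <;>
  simp only [max_def] <;> split_ifs <;> linarith

theorem exc_continuous {K : Set E} (hK : IsConvexCompact K) : Continuous (exc K) := by
  have h := supp_continuous hK.1 hK.2.1
  have h' : Continuous fun u => supportFn K (-u) := h.comp continuous_neg
  exact continuous_const.max (h.neg.max h'.neg)

theorem exc_nonneg (K : Set E) (u : E) : 0 ≤ exc K u := le_max_left _ _

/-- The integral of the excess. -/
noncomputable def excInt (K : Set E) : ℝ := ∫ u in ball (0 : E) 1, exc K u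

theorem excInt_nonneg (K : Set E) : 0 ≤ excInt K :=
  setIntegral_nonneg measurableSet_ball fun u _ => exc_nonneg K u

theorem excInt_anti {K L : Set E} (hK : IsConvexCompact K) (hL : IsConvexCompact L)
    (h : K ⊆ L) : excInt L ≤ excInt K := by
  refine setIntegral_mono (integrableOn_ball (exc_continuous hL))
    (integrableOn_ball (exc_continuous hK)) fun u => ?_
  have h1 := supp_mono hK.1 hL.2.1 h u
  have h2 := supp_mono hK.1 hL.2.1 h (-u)
  unfold exc
  gcongr

theorem ballWidth_zset {K : Set E} (hK : IsConvexCompact K) :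
    ballWidth (zset K) = 2 * ballWidth K + excInt K := by
  have h := supp_continuous hK.1 hK.2.1
  have h' : Continuous fun u => supportFn K (-u) := h.comp continuous_neg
  have h1 : ballWidth (zset K) =
      ∫ u in ball (0 : E) 1, (supportFn K u + supportFn K (-u) + exc K u) := by
    unfold ballWidth
    congr 1
    ext u
    exact supp_zset' hK u
  have hsum : Continuous fun u => supportFn K u + supportFn K (-u) := h.add h'
  rw [h1, integral_add (integrableOn_ball hsum) (integrableOn_ball (exc_continuous hK)),
    integral_add (integrableOn_ball h) (integrableOn_ball h'), setIntegral_ball_neg (supportFn K),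
    ballWidth, excInt]
  ring

theorem ballWidth_nonneg {K : Set E} (hK : IsConvexCompact K) : 0 ≤ ballWidth K := by
  have h := supp_continuous hK.1 hK.2.1
  have h' : Continuous fun u => supportFn K (-u) := h.comp continuous_neg
  have h1 : 0 ≤ ∫ u in ball (0 : E) 1, (supportFn K u + supportFn K (-u)) :=
    setIntegral_nonneg measurableSet_ball fun u _ => supp_add_neg_nonneg hK u
  rw [integral_add (integrableOn_ball h) (integrableOn_ball h'),
    setIntegral_ball_neg (supportFn K)] at h1
  unfold ballWidth
  linarith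

/-- The dilation factor. -/
theorem ratio_nonneg {K : Set E} (hK : IsConvexCompact K) :
    0 ≤ ballWidth K / ballWidth (zset K) :=
  div_nonneg (ballWidth_nonneg hK) (ballWidth_nonneg (zset_cc hK))

theorem ratio_mono {K L : Set E} (hK : IsConvexCompact K) (hL : IsConvexCompact L)
    (h : K ⊆ L) : ballWidth K / ballWidth (zset K) ≤ ballWidth L / ballWidth (zset L) := by
  have h1 := ballWidth_nonneg hK
  have h2 := ballWidth_mono hK hL h
  have h3 := excInt_anti hK hL h
  have h4 := excInt_nonneg L
  have h5 := ratio_nonneg hL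
  rcases eq_or_lt_of_le h1 with h6 | h6
  · rw [← h6, zero_div]; exact h5
  · rw [ballWidth_zset hK, ballWidth_zset hL, div_le_div_iff₀ (by linarith) (by linarith)]
    nlinarith

theorem csym_cc {K : Set E} (hK : IsConvexCompact K) : IsConvexCompact (csym K) :=
  ⟨(zset_cc hK).1.image _, (zset_cc hK).2.1.image (by fun_prop), (zset_cc hK).2.2.smul _⟩

theorem supp_csym {K : Set E} (hK : IsConvexCompact K) (u : E) :
    supportFn (csym K) u = ballWidth K / ballWidth (zset K) * supportFn (zset K) u :=
  supp_smul_set (zset_cc hK).1 (zset_cc hK).2.1 (ratio_nonneg hK) u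

theorem supp_zset_nonneg {K : Set E} (hK : IsConvexCompact K) (u : E) :
    0 ≤ supportFn (zset K) u := by
  rw [supp_zset' hK]
  exact add_nonneg (supp_add_neg_nonneg hK u) (exc_nonneg K u)

theorem csym_mono {K L : Set E} (hK : IsConvexCompact K) (hL : IsConvexCompact L)
    (h : K ⊆ L) : csym K ⊆ csym L := by
  refine subset_of_supp_le (csym_cc hK).2.1 (csym_cc hL).2.1 (csym_cc hL).2.2 (csym_cc hL).1
    fun u => ?_
  rw [supp_csym hK, supp_csym hL]
  have h1 := supp_mono hK.1 hL.2.1 h u
  have h2 := supp_mono hK.1 hL.2.1 h (-u)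
  have h3 : supportFn (zset K) u ≤ supportFn (zset L) u := by
    rw [supp_zset hK, supp_zset hL]
    gcongr
  exact mul_le_mul (ratio_mono hK hL h) h3 (supp_zset_nonneg hK u) (ratio_nonneg hL)

theorem ballWidth_csym {K : Set E} (hK : IsConvexCompact K) :
    ballWidth (csym K) = ballWidth K := by
  have h1 : ballWidth (csym K) = ballWidth K / ballWidth (zset K) * ballWidth (zset K) := by
    rw [ballWidth, ballWidth, ballWidth, ← integral_const_mul]
    congr 1
    ext u
    rw [supp_csym hK]
    rfl
  rw [h1]
  rcases eq_or_ne (ballWidth (zset K)) 0 with h | h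
  · rw [h, mul_zero]
    rw [ballWidth_zset hK] at h
    have := ballWidth_nonneg hK
    have := excInt_nonneg K
    linarith
  · field_simp

theorem isSymm_bot_iff {K : Set E} : IsSymm (⊥ : Submodule ℝ E) K ↔ -K = K := by
  unfold IsSymm
  rw [Submodule.reflection_bot]
  have : (LinearIsometryEquiv.neg ℝ : E ≃ₗᵢ[ℝ] E) '' K = -K := by
    rw [LinearIsometryEquiv.coe_neg, ← Set.image_neg_eq_neg]
  rw [this]

theorem isSymm_csym {K : Set E} (hK : IsConvexCompact K) :
    IsSymm (⊥ : Submodule ℝ E) (csym K) := by
  rw [isSymm_bot_iff]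
  have hc := csym_cc hK
  refine eq_of_supp_eq ⟨hc.1.neg, hc.2.1.neg, hc.2.2.neg⟩ hc fun u => ?_
  rw [supp_neg_set, supp_csym hK, supp_csym hK, supp_zset hK, supp_zset hK, neg_neg,
    max_comm (supportFn K (-u)), add_comm (supportFn K (-u))]

theorem supp_symm {K : Set E} (hs : -K = K) (u : E) : supportFn K (-u) = supportFn K u := by
  rw [← supp_neg_set, hs]

theorem csym_fix {K : Set E} (hK : IsConvexCompact K)
    (hs : IsSymm (⊥ : Submodule ℝ E) K) : csym K = K := by
  rw [isSymm_bot_iff] at hs
  have h0 : ∀ u, 0 ≤ supportFn K u := fun u => by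
    have := supp_add_neg_nonneg hK u
    rw [supp_symm hs] at this
    linarith
  have h1 : excInt K = 0 := by
    unfold excInt
    rw [setIntegral_congr_fun (g := fun _ => (0 : ℝ)) measurableSet_ball]
    · simp
    · intro u _
      simp only [exc, supp_symm hs]
      have := h0 u
      rw [max_self]
      exact max_eq_left (by linarith)
  have h2 : ∀ u, supportFn (zset K) u = 2 * supportFn K u := fun u => by
    rw [supp_zset' hK, supp_symm hs]
    have := h0 u
    simp only [exc, supp_symm hs, max_self]
    rw [max_eq_left (by linarith)]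
    ring
  refine eq_of_supp_eq (csym_cc hK) hK fun u => ?_
  rw [supp_csym hK, ballWidth_zset hK, h1, h2, add_zero]
  rcases eq_or_lt_of_le (ballWidth_nonneg hK) with h | h
  · -- mean width zero
    rw [← h]
    have h3 := eqOn_ball_of_integral (f := fun _ => (0 : ℝ)) (g := supportFn K) continuous_const
      (supp_continuous hK.1 hK.2.1) (fun x _ => h0 x) (by
        change ballWidth K ≤ _
        rw [← h]; simp)
    have h4 := eq_of_eqOn_ball (f := fun _ => (0 : ℝ)) (g := supportFn K)
      (fun r _ u => by simp) (supp_homog hK) h3 u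
    rw [← h4]; simp
  · field_simp

theorem ballWidth_pos_of_body {K : Set E} [Nontrivial E] (hK : IsConvexBody K) :
    0 < ballWidth K := by
  obtain ⟨x, hx⟩ := hK.2.2
  obtain ⟨ε, hε, hball⟩ := Metric.isOpen_iff.1 isOpen_interior x hx
  have hball' : closedBall x (ε / 2) ⊆ K := fun y hy =>
    interior_subset (hball (mem_ball.2 (lt_of_le_of_lt (mem_closedBall.1 hy) (by linarith))))
  have h1 : ∀ u, ⟪x, u⟫ + ε / 2 * ‖u‖ ≤ supportFn K u := by
    intro u
    rcases eq_or_ne u 0 with rfl | hu
    · simp [supp_zero hK.convexCompact.1 hK.1]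
    · have hy : x + (ε / 2 / ‖u‖) • u ∈ K := by
        apply hball'
        rw [mem_closedBall, dist_eq_norm, add_sub_cancel_left, norm_smul, Real.norm_eq_abs,
          abs_of_pos (by positivity)]
        rw [div_mul_cancel₀ _ (norm_ne_zero_iff.2 hu)]
      have h2 := le_supp hK.1 hy u
      rw [inner_add_left, inner_smul_left, real_inner_self_eq_norm_sq] at h2
      simp only [RCLike.conj_to_real] at h2
      have h3 : ε / 2 / ‖u‖ * ‖u‖ ^ 2 = ε / 2 * ‖u‖ := by
        have := norm_ne_zero_iff.2 hu
        field_simp
      linarith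
  have h2 : ∫ u in ball (0 : E) 1, (⟪x, u⟫ + ε / 2 * ‖u‖) ≤ ballWidth K :=
    setIntegral_mono (integrableOn_ball (by fun_prop)) (supp_integrable hK.convexCompact) h1
  have h3 : ∫ u in ball (0 : E) 1, ⟪x, u⟫ = 0 := by
    have := setIntegral_ball_neg (fun u : E => ⟪x, u⟫)
    simp only [inner_neg_right, integral_neg] at this
    linarith
  rw [integral_add (integrableOn_ball (by fun_prop)) (integrableOn_ball (by fun_prop)), h3,
    integral_const_mul] at h2
  have h4 := integral_ball_norm_pos (E := E)
  nlinarith

theorem csym_body {K : Set E} [Nontrivial E] (hK : IsConvexBody K) : IsConvexBody (csym K) := by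
  have hc := csym_cc hK.convexCompact
  refine ⟨hc.2.1, hc.2.2, ?_⟩
  have h1 := ballWidth_pos_of_body hK
  have h2 : 0 < ballWidth (zset K) := by
    rw [ballWidth_zset hK.convexCompact]
    have := excInt_nonneg K
    linarith
  have h3 : ballWidth K / ballWidth (zset K) ≠ 0 := (div_pos h1 h2).ne'
  rw [csym, interior_smul₀ h3]
  have h4 : K ⊆ zset K := (subset_union_left.trans subset_union_left).trans (subset_hull _)
  exact ((hK.2.2.mono (interior_mono h4))).image _

theorem ball_body [Nontrivial E] : IsConvexBody (closedBall (0 : E) 1) :=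
  ⟨isCompact_closedBall _ _, convex_closedBall _ _, ⟨0, by
    rw [interior_closedBall _ one_ne_zero]; simp⟩⟩

theorem supp_closedBall (u : E) : supportFn (closedBall (0 : E) 1) u = ‖u‖ := by
  apply le_antisymm
  · refine supp_le ⟨0, by simp⟩ fun x hx => ?_
    have h1 := real_inner_le_norm x u
    have h2 : ‖x‖ ≤ 1 := by simpa using hx
    nlinarith [norm_nonneg u]
  · rcases eq_or_ne u 0 with rfl | hu
    · rw [supp_zero ⟨0, by simp⟩ (isCompact_closedBall _ _)]; simp
    · have hmem : (‖u‖⁻¹ • u) ∈ closedBall (0 : E) 1 := by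
        rw [mem_closedBall_zero_iff, norm_smul, norm_inv, norm_norm,
          inv_mul_cancel₀ (norm_ne_zero_iff.2 hu)]
      have h1 := le_supp (isCompact_closedBall (0 : E) 1) hmem u
      rw [inner_smul_left, real_inner_self_eq_norm_sq] at h1
      simp only [RCLike.conj_to_real] at h1
      have h3 : ‖u‖⁻¹ * ‖u‖ ^ 2 = ‖u‖ := by
        have := norm_ne_zero_iff.2 hu
        field_simp
      linarith

/-- The example is not invariant under translations. -/
theorem csym_not_invariant {e₁ e₂ : E} (h1 : ‖e₁‖ = 1) (h2 : ‖e₂‖ = 1) (h12 : ⟪e₁, e₂⟫ = 0) :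
    csym ((fun x => x + (3 : ℝ) • e₁) '' closedBall (0 : E) 1) ≠ closedBall 0 1 := by
  intro h
  have hB : IsConvexCompact (closedBall (0 : E) 1) :=
    ⟨⟨0, by simp⟩, isCompact_closedBall _ _, convex_closedBall _ _⟩
  have hK := hB.image_add ((3 : ℝ) • e₁)
  have hs : ∀ u, supportFn ((fun x => x + (3 : ℝ) • e₁) '' closedBall (0 : E) 1) u =
      ‖u‖ + 3 * ⟪e₁, u⟫ := fun u => by
    rw [supp_image_add hB.1 hB.2.1, supp_closedBall, inner_smul_left]; simp
  have hk := supp_csym hK
  rw [h] at hk
  have k1 := hk e₁
  have k2 := hk e₂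
  rw [supp_closedBall, supp_zset hK, hs, hs, norm_neg, inner_neg_right, h1,
    real_inner_self_eq_norm_sq, h1] at k1
  rw [supp_closedBall, supp_zset hK, hs, hs, norm_neg, inner_neg_right, h2, h12] at k2
  norm_num at k1 k2
  linarith

end Pool.Agent.helper70.MW
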