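import Pool.Agent.helper70.MW.Orth
import Pool.Agent.helper70.MW.Central

/-!
# From convex bodies to compact convex sets
-/

set_option autoImplicit false
set_option linter.unusedSectionVars false
set_option linter.unusedVariables false

open MeasureTheory Metric Set Module Filter Topology
open scoped RealInnerProductSpace Pointwise

namespace Pool.Agent.helper70.MW

variable {E : Type*} [NormedAddCommGroup E] [InnerProductSpace ℝ E] [FiniteDimensional ℝ E]
  [MeasurableSpace E] [BorelSpace E]

/-- The hypotheses of the rigidity theorem for convex bodies. -/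
structure GoodBody (H : Submodule ℝ E) (D : Set E → Set E) : Prop where
  body : ∀ K, IsConvexBody K → IsConvexBody (D K)
  symm : ∀ K, IsConvexBody K → IsSymm H (D K)
  mono : ∀ K L, IsConvexBody K → IsConvexBody L → K ⊆ L → D K ⊆ D L
  width : ∀ K, IsConvexBody K → ballWidth (D K) = ballWidth K
  fix : ∀ K, IsConvexBody K → IsSymm H K → D K = K

/-- The parallel body at distance `1/(m+1)`. -/
def thick (m : ℕ) (K : Set E) : Set E := K + closedBall (0 : E) (1 / ((m : ℝ) + 1))

theorem rad_pos (m : ℕ) : (0 : ℝ) < 1 / ((m : ℝ) + 1) := by positivity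

theorem zero_mem_rad (m : ℕ) : (0 : E) ∈ closedBall (0 : E) (1 / ((m : ℝ) + 1)) :=
  mem_closedBall_self (rad_pos m).le

theorem supp_closedBall_rad {r : ℝ} (hr : 0 < r) (u : E) :
    supportFn (closedBall (0 : E) r) u = r * ‖u‖ := by
  have h1 : closedBall (0 : E) r = r • closedBall (0 : E) 1 := by
    rw [smul_unitClosedBall_of_nonneg hr.le]
  rw [h1, supp_smul_set ⟨0, by simp⟩ (isCompact_closedBall _ _) hr.le, supp_closedBall]

theorem supp_thick {K : Set E} (hK : IsConvexCompact K) (m : ℕ) (u : E) :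
    supportFn (thick m K) u = supportFn K u + 1 / ((m : ℝ) + 1) * ‖u‖ := by
  rw [thick, supp_add_set hK.1 hK.2.1 ⟨0, zero_mem_rad m⟩ (isCompact_closedBall _ _),
    supp_closedBall_rad (rad_pos m)]

theorem thick_cc {K : Set E} (hK : IsConvexCompact K) (m : ℕ) : IsConvexCompact (thick m K) :=
  ⟨hK.1.add ⟨0, zero_mem_rad m⟩, hK.2.1.add (isCompact_closedBall _ _),
    hK.2.2.add (convex_closedBall _ _)⟩

theorem thick_body {K : Set E} (hK : IsConvexCompact K) (m : ℕ) : IsConvexBody (thick m K) := by
  refine ⟨(thick_cc hK m).2.1, (thick_cc hK m).2.2, ?_⟩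
  obtain ⟨x, hx⟩ := hK.1
  refine ⟨x, mem_interior.2 ⟨ball x (1 / ((m : ℝ) + 1)), ?_, isOpen_ball,
    mem_ball_self (rad_pos m)⟩⟩
  intro y hy
  refine ⟨x, hx, y - x, ?_, by simp⟩
  rw [mem_closedBall_zero_iff, ← dist_eq_norm]
  exact (mem_ball.1 hy).le

theorem thick_mono {K L : Set E} (h : K ⊆ L) (m : ℕ) : thick m K ⊆ thick m L :=
  add_subset_add_right h

theorem thick_anti (K : Set E) {m m' : ℕ} (h : m ≤ m') : thick m' K ⊆ thick m K := by
  refine add_subset_add_left (closedBall_subset_closedBall ?_)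
  apply one_div_le_one_div_of_le (by positivity)
  have : (m : ℝ) ≤ m' := by exact_mod_cast h
  linarith

theorem subset_thick (K : Set E) (m : ℕ) : K ⊆ thick m K := fun x hx =>
  ⟨x, hx, 0, zero_mem_rad m, by simp⟩

theorem thick_symm {H : Submodule ℝ E} {K : Set E} (hK : IsConvexCompact K) (hs : IsSymm H K)
    (m : ℕ) : IsSymm H (thick m K) := by
  refine isSymm_of_supp (thick_cc hK m) fun u => ?_
  rw [supp_thick hK, supp_thick hK, supp_reflection hs, LinearIsometryEquiv.norm_map]

theorem tendsto_rad : Tendsto (fun m : ℕ => 1 / ((m : ℝ) + 1)) atTop (𝓝 0) :=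
  tendsto_one_div_add_atTop_nhds_zero_nat

theorem iInter_thick {K : Set E} (hK : IsConvexCompact K) : ⋂ m, thick m K = K := by
  apply Subset.antisymm
  · intro x hx
    rw [mem_iInter] at hx
    have h1 : ∀ u, supportFn {x} u ≤ supportFn K u := by
      intro u
      refine supp_le (singleton_nonempty x) ?_
      rintro y rfl
      have h2 : Tendsto (fun m : ℕ => supportFn K u + 1 / ((m : ℝ) + 1) * ‖u‖) atTop
          (𝓝 (supportFn K u + 0 * ‖u‖)) := (tendsto_rad.mul_const _).const_add _
      rw [zero_mul, add_zero] at h2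
      refine ge_of_tendsto' h2 fun m => ?_
      rw [← supp_thick hK]
      exact le_supp (thick_cc hK m).2.1 (hx m) u
    exact subset_of_supp_le isCompact_singleton hK.2.1 hK.2.2 hK.1 h1 rfl
  · exact subset_iInter fun m => subset_thick K m

theorem ballWidth_thick {K : Set E} (hK : IsConvexCompact K) (m : ℕ) :
    ballWidth (thick m K) = ballWidth K +
      1 / ((m : ℝ) + 1) * ∫ u in ball (0 : E) 1, ‖u‖ := by
  unfold ballWidth
  simp only [supp_thick hK]
  rw [integral_add (supp_integrable hK) (integrableOn_ball (by fun_prop)), integral_const_mul]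

theorem tendsto_ballWidth_thick {K : Set E} (hK : IsConvexCompact K) :
    Tendsto (fun m => ballWidth (thick m K)) atTop (𝓝 (ballWidth K)) := by
  simp only [ballWidth_thick hK]
  have h := (tendsto_rad.mul_const (∫ u in ball (0 : E) 1, ‖u‖)).const_add (ballWidth K)
  rwa [zero_mul, add_zero] at h

section inter

variable {A : ℕ → Set E}

theorem iInter_cc (hA : ∀ m, IsConvexCompact (A m)) (hanti : ∀ m, A (m + 1) ⊆ A m) :
    IsConvexCompact (⋂ m, A m) :=
  ⟨IsCompact.nonempty_iInter_of_sequence_nonempty_isCompact_isClosed A hanti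
    (fun m => (hA m).1) (hA 0).2.1 (fun m => (hA m).2.1.isClosed),
    (hA 0).2.1.of_isClosed_subset (isClosed_iInter fun m => (hA m).2.1.isClosed)
      (iInter_subset _ 0), convex_iInter fun m => (hA m).2.2⟩

theorem tendsto_supp_iInter (hA : ∀ m, IsConvexCompact (A m)) (hanti : ∀ m, A (m + 1) ⊆ A m)
    (u : E) : Tendsto (fun m => supportFn (A m) u) atTop (𝓝 (supportFn (⋂ m, A m) u)) := by
  have hI := iInter_cc hA hanti
  have hmono : Antitone A := antitone_nat_of_succ_le hanti
  have hant : Antitone fun m => supportFn (A m) u := fun m m' h =>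
    supp_mono (hA m').1 (hA m).2.1 (hmono h) u
  have hlow : ∀ m, supportFn (⋂ m, A m) u ≤ supportFn (A m) u := fun m =>
    supp_mono hI.1 (hA m).2.1 (iInter_subset _ m) u
  rw [Metric.tendsto_atTop]
  intro ε hε
  by_contra hcon
  push Not at hcon
  have h1 : ∀ m, supportFn (⋂ m, A m) u + ε ≤ supportFn (A m) u := by
    intro m
    obtain ⟨m', hm', h2⟩ := hcon m
    rw [Real.dist_eq, abs_of_nonneg (sub_nonneg.2 (hlow m'))] at h2
    have := hant hm'
    simp only at this
    linarith
  have hcl : IsClosed {x : E | supportFn (⋂ m, A m) u + ε ≤ ⟪x, u⟫} :=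
    isClosed_le continuous_const (by fun_prop)
  obtain ⟨x, hx⟩ := IsCompact.nonempty_iInter_of_sequence_nonempty_isCompact_isClosed
    (fun m => A m ∩ {x : E | supportFn (⋂ m, A m) u + ε ≤ ⟪x, u⟫})
    (fun m => inter_subset_inter_left _ (hanti m))
    (fun m => by
      obtain ⟨x, hx, hxu⟩ := exists_supp (hA m).2.1 (hA m).1 u
      exact ⟨x, hx, by rw [Set.mem_ofPred_eq, hxu]; exact h1 m⟩)
    ((hA 0).2.1.inter_right hcl) (fun m => (hA m).2.1.isClosed.inter hcl)
  rw [mem_iInter] at hx
  have h3 : x ∈ ⋂ m, A m := mem_iInter.2 fun m => (hx m).1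
  have h4 := le_supp hI.2.1 h3 u
  have h5 : supportFn (⋂ m, A m) u + ε ≤ ⟪x, u⟫ := (hx 0).2
  linarith

theorem tendsto_ballWidth_iInter (hA : ∀ m, IsConvexCompact (A m))
    (hanti : ∀ m, A (m + 1) ⊆ A m) :
    Tendsto (fun m => ballWidth (A m)) atTop (𝓝 (ballWidth (⋂ m, A m))) := by
  have hI := iInter_cc hA hanti
  have hmono : Antitone A := antitone_nat_of_succ_le hanti
  have hc0 := supp_continuous (hA 0).1 (hA 0).2.1
  have hcI := supp_continuous hI.1 hI.2.1
  refine tendsto_integral_of_dominated_convergence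
    (fun u => |supportFn (A 0) u| + |supportFn (⋂ m, A m) u|)
    (fun m => (supp_continuous (hA m).1 (hA m).2.1).aestronglyMeasurable)
    (integrableOn_ball (by fun_prop)) (fun m => Eventually.of_forall fun u => ?_)
    (Eventually.of_forall fun u => tendsto_supp_iInter hA hanti u)
  have h1 : supportFn (⋂ m, A m) u ≤ supportFn (A m) u :=
    supp_mono hI.1 (hA m).2.1 (iInter_subset _ m) u
  have h2 : supportFn (A m) u ≤ supportFn (A 0) u :=
    supp_mono (hA m).1 (hA 0).2.1 (hmono (Nat.zero_le m)) u
  rw [Real.norm_eq_abs, abs_le]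
  have h3 := neg_abs_le (supportFn (⋂ m, A m) u)
  have h4 := le_abs_self (supportFn (A 0) u)
  have h5 := abs_nonneg (supportFn (⋂ m, A m) u)
  have h6 := abs_nonneg (supportFn (A 0) u)
  constructor <;> linarith

theorem iInter_symm {H : Submodule ℝ E} (hA : ∀ m, IsSymm H (A m)) : IsSymm H (⋂ m, A m) := by
  have h1 : ∀ x ∈ ⋂ m, A m, H.reflection x ∈ ⋂ m, A m := by
    intro x hx
    rw [mem_iInter] at hx ⊢
    intro m
    rw [← hA m]
    exact ⟨x, hx m, rfl⟩
  apply Subset.antisymm
  · rintro _ ⟨z, hz, rfl⟩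
    exact h1 z hz
  · intro z hz
    exact ⟨H.reflection z, h1 z hz, H.reflection_reflection z⟩

end inter

/-- The extension to compact convex sets. -/
theorem GoodBody.good {H : Submodule ℝ E} {D : Set E → Set E} (hD : GoodBody H D) :
    Good H (fun K => ⋂ m, D (thick m K)) := by
  have hA : ∀ K, IsConvexCompact K → ∀ m, IsConvexCompact (D (thick m K)) := fun K hK m =>
    (hD.body _ (thick_body hK m)).convexCompact
  have hanti : ∀ K, IsConvexCompact K → ∀ m, D (thick (m + 1) K) ⊆ D (thick m K) :=
    fun K hK m => hD.mono _ _ (thick_body hK _) (thick_body hK _) (thick_anti K (Nat.le_succ m))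
  refine ⟨fun K hK => iInter_cc (hA K hK) (hanti K hK),
    fun K hK => iInter_symm fun m => hD.symm _ (thick_body hK m),
    fun K L hK hL h => iInter_mono fun m =>
      hD.mono _ _ (thick_body hK m) (thick_body hL m) (thick_mono h m),
    fun K hK => ?_, fun K hK hs => ?_⟩
  · have h1 := tendsto_ballWidth_iInter (hA K hK) (hanti K hK)
    have h2 : ∀ m, ballWidth (D (thick m K)) = ballWidth (thick m K) := fun m =>
      hD.width _ (thick_body hK m)
    simp only [h2] at h1
    exact tendsto_nhds_unique h1 (tendsto_ballWidth_thick hK)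
  · have h1 : ∀ m, D (thick m K) = thick m K := fun m =>
      hD.fix _ (thick_body hK m) (thick_symm hK hs m)
    simp only [h1]
    exact iInter_thick hK

/-- The rigidity theorem for convex bodies. -/
theorem GoodBody.main {H : Submodule ℝ E} {D : Set E → Set E} (hD : GoodBody H D) {e : E}
    (he : ‖e‖ = 1) [Nontrivial (perp e)] (heH : e ∈ H) {K : Set E} (hK : IsConvexBody K)
    (hKs : IsSymm H K) {y : E} (hy : y ∈ Hᗮ) :
    D ((fun x => x + y) '' K) = K := by
  have hKcc := hK.convexCompact
  have hK'cc := hKcc.image_add y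
  have hK' : IsConvexBody ((fun x => x + y) '' K) := by
    refine ⟨hK'cc.2.1, hK'cc.2.2, ?_⟩
    have h1 : interior ((fun x => x + y) '' K) = (fun x => x + y) '' interior K :=
      ((Homeomorph.addRight y).image_interior K).symm
    rw [h1]
    exact hK.2.2.image _
  have h1 := hD.good.main he heH hKcc hKs hy
  have h2 : D ((fun x => x + y) '' K) ⊆ K := by
    conv_rhs => rw [← h1]
    exact subset_iInter fun m => hD.mono _ _ hK' (thick_body hK'cc m) (subset_thick _ m)
  refine eq_of_subset_of_ballWidth (hD.body _ hK').convexCompact hKcc h2 ?_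
  rw [hD.width _ hK', ballWidth_image_add hKcc]

end Pool.Agent.helper70.MW
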