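import Pool.Agent.helper70.MW.Width

/-!
# Splitting off a line: the second order asymptotics
-/

set_option autoImplicit false
set_option linter.unusedSectionVars false
set_option linter.unusedVariables false

open MeasureTheory Metric Set Module Filter Topology
open scoped RealInnerProductSpace Pointwise

namespace Pool.Agent.helper70.MW

variable {E : Type*} [NormedAddCommGroup E] [InnerProductSpace ℝ E] [FiniteDimensional ℝ E]
  [MeasurableSpace E] [BorelSpace E]

/-- The orthogonal complement of a line. -/
noncomputable abbrev perp (e : E) : Submodule ℝ E := (ℝ ∙ e)ᗮ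

/-- The decomposition of `E` as line times hyperplane. -/
noncomputable def decomp (e : E) (he : ‖e‖ = 1) : (ℝ × perp e) ≃ᵐ E :=
  ((LinearIsometryEquiv.toSpanUnitSingleton e he).toHomeomorph.toMeasurableEquiv.prodCongr
    (MeasurableEquiv.refl _)).trans
  ((MeasurableEquiv.toLp 2 ((ℝ ∙ e) × perp e)).trans
    (ℝ ∙ e).orthogonalDecomposition.symm.toHomeomorph.toMeasurableEquiv)

theorem decomp_apply (e : E) (he : ‖e‖ = 1) (p : ℝ × perp e) :
    decomp e he p = p.1 • e + (p.2 : E) := by
  simp [decomp, MeasurableEquiv.prodCongr]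

theorem decomp_mp (e : E) (he : ‖e‖ = 1) :
    MeasurePreserving (decomp e he) (volume.prod volume) volume := by
  unfold decomp
  refine MeasurePreserving.trans
    (μb := (volume : Measure (ℝ ∙ e)).prod (volume : Measure (perp e))) ?_ ?_
  · exact (LinearIsometryEquiv.toSpanUnitSingleton e he).measurePreserving.prod
      (MeasurePreserving.id _)
  · refine MeasurePreserving.trans (μb := volume) ?_ ?_
    · exact WithLp.volume_preserving_toLp _ _
    · exact (ℝ ∙ e).orthogonalDecomposition.symm.measurePreserving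

theorem norm_sq_decomp {e : E} (he : ‖e‖ = 1) (σ : ℝ) (v : perp e) :
    ‖σ • e + (v : E)‖ ^ 2 = σ ^ 2 + ‖v‖ ^ 2 := by
  have h : ⟪e, (v : E)⟫ = 0 := Submodule.mem_orthogonal_singleton_iff_inner_right.1 v.2
  rw [norm_add_sq_real, norm_smul, he, inner_smul_left, h]
  simp

theorem inner_decomp {e : E} (he : ‖e‖ = 1) (σ : ℝ) (v : perp e) :
    ⟪e, σ • e + (v : E)⟫ = σ := by
  have h : ⟪e, (v : E)⟫ = 0 := Submodule.mem_orthogonal_singleton_iff_inner_right.1 v.2
  rw [inner_add_right, h, inner_smul_right, real_inner_self_eq_norm_sq, he]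
  simp

theorem exists_decomp {e : E} (he : ‖e‖ = 1) (x : E) : ∃ (σ : ℝ) (v : perp e),
    x = σ • e + (v : E) := by
  refine ⟨((decomp e he).symm x).1, ((decomp e he).symm x).2, ?_⟩
  rw [← decomp_apply e he]
  simp

/-- The integral of a tent function. -/
theorem integral_tent {d s : ℝ} (hd : 0 ≤ d) (hs : 0 < s) :
    ∫ σ : ℝ, max (d - s * |σ|) 0 = d ^ 2 / s := by
  rw [integral_comp_abs (f := fun t => max (d - s * t) 0)]
  have h1 : ∫ t in Ioi (0 : ℝ), max (d - s * t) 0 = ∫ t in Ioc (0 : ℝ) (d / s), (d - s * t) := by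
    have h2 : ∫ t in Ioi (0 : ℝ), max (d - s * t) 0 =
        ∫ t in Ioc (0 : ℝ) (d / s), max (d - s * t) 0 := by
      apply setIntegral_eq_of_subset_of_forall_sdiff_eq_zero measurableSet_Ioi
        Ioc_subset_Ioi_self
      intro x hx
      have h3 : d / s < x := by
        by_contra hcon
        exact hx.2 ⟨hx.1, not_lt.1 hcon⟩
      rw [div_lt_iff₀ hs] at h3
      exact max_eq_right (by linarith)
    rw [h2]
    apply setIntegral_congr_fun measurableSet_Ioc
    intro x hx
    have h3 : x * s ≤ d := (le_div_iff₀ hs).1 hx.2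
    exact max_eq_left (by linarith)
  rw [h1, ← intervalIntegral.integral_of_le (by positivity)]
  have hi1 : IntervalIntegrable (fun _ : ℝ => d) volume 0 (d / s) := by simp
  have hi2 : IntervalIntegrable (fun t : ℝ => s * t) volume 0 (d / s) :=
    (by fun_prop : Continuous fun t : ℝ => s * t).intervalIntegrable _ _
  rw [intervalIntegral.integral_sub hi1 hi2, intervalIntegral.integral_const_mul, integral_id,
    intervalIntegral.integral_const]
  simp only [smul_eq_mul]
  field_simp
  ring

theorem integrable_tent {d s : ℝ} (hs : 0 < s) :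
    Integrable fun σ : ℝ => max (d - s * |σ|) 0 := by
  have hc : Continuous fun σ : ℝ => max (d - s * |σ|) 0 := by fun_prop
  refine hc.integrable_of_hasCompactSupport ?_
  refine HasCompactSupport.intro (K := Icc (-(|d| / s)) (|d| / s)) isCompact_Icc ?_
  intro x hx
  have h1 : |d| / s < |x| := by
    by_contra hcon
    exact hx (abs_le.1 (not_lt.1 hcon))
  rw [div_lt_iff₀ hs] at h1
  have h2 := le_abs_self d
  exact max_eq_right (by linarith)

/-- The tent over the ball. -/
noncomputable def tent (e : E) (δ : E → ℝ) (n : ℝ) (x : E) : ℝ := max (|δ x| - n * |⟪e, x⟫|) 0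

theorem tent_continuous {e : E} {δ : E → ℝ} (hδ : Continuous δ) (n : ℝ) :
    Continuous (tent e δ n) := by
  unfold tent
  fun_prop

/-- Second order asymptotics. -/
theorem tendsto_tent {e : E} (he : ‖e‖ = 1) {δ : E → ℝ} (hδ : Continuous δ)
    (hinv : ∀ (σ : ℝ) (v : perp e), δ (σ • e + (v : E)) = δ v) :
    Tendsto (fun n : ℕ => (n : ℝ) * ∫ x in ball (0 : E) 1, tent e δ n x) atTop
      (𝓝 (∫ v in ball (0 : perp e) 1, δ (v : E) ^ 2)) := by
  classical
  -- functions on the product
  let G : ℕ → ℝ × perp e → ℝ := fun n p =>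
    (ball (0 : E) 1).indicator (tent e δ n) (decomp e he p)
  have hGint : ∀ n, Integrable (G n) (volume.prod volume) := fun n => by
    have h1 : Integrable ((ball (0 : E) 1).indicator (tent e δ n)) :=
      (integrable_indicator_iff measurableSet_ball).2 (integrableOn_ball (tent_continuous hδ n))
    exact ((decomp_mp e he).integrable_comp_emb (decomp e he).measurableEmbedding).2 h1
  have hGval : ∀ n σ (v : perp e), G n (σ, v) =
      if σ ^ 2 + ‖v‖ ^ 2 < 1 then max (|δ v| - n * |σ|) 0 else 0 := by
    intro n σ v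
    have hmem : decomp e he (σ, v) ∈ ball (0 : E) 1 ↔ σ ^ 2 + ‖v‖ ^ 2 < 1 := by
      rw [decomp_apply, mem_ball_zero_iff, ← norm_sq_decomp he]
      simp only
      rw [sq_lt_one_iff₀ (norm_nonneg _)]
    simp only [G, indicator_apply, hmem]
    split_ifs with h
    · simp only [tent, decomp_apply, hinv, inner_decomp he]
    · rfl
  let Φ : ℕ → perp e → ℝ := fun n v => ∫ σ, G n (σ, v)
  have hint : ∀ n : ℕ, ∫ x in ball (0 : E) 1, tent e δ n x = ∫ v, Φ n v := by
    intro n
    rw [← integral_indicator measurableSet_ball,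
      ← (decomp_mp e he).integral_comp (decomp e he).measurableEmbedding]
    exact integral_prod_symm (G n) (hGint n)
  -- bounds
  have hΦ0 : ∀ n v, 0 ≤ Φ n v := by
    intro n v
    refine integral_nonneg fun σ => ?_
    simp only [hGval, Pi.zero_apply]
    split_ifs
    · exact le_max_right _ _
    · exact le_rfl
  have hΦle : ∀ (n : ℕ) (v : perp e), 0 < n → ‖v‖ < 1 → n * Φ n v ≤ δ v ^ 2 := by
    intro n v hn hv
    have hn' : (0 : ℝ) < n := by exact_mod_cast hn
    have h1 : Φ n v ≤ ∫ σ : ℝ, max (|δ v| - n * |σ|) 0 := by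
      refine integral_mono_of_nonneg (Eventually.of_forall fun σ => ?_) (integrable_tent hn')
        (Eventually.of_forall fun σ => ?_)
      · simp only [hGval, Pi.zero_apply]
        split_ifs
        · exact le_max_right _ _
        · exact le_rfl
      · simp only [hGval]
        split_ifs
        · exact le_rfl
        · exact le_max_right _ _
    rw [integral_tent (abs_nonneg _) hn', sq_abs] at h1
    calc n * Φ n v ≤ n * (δ v ^ 2 / n) := by gcongr
      _ = δ v ^ 2 := by field_simp
  have hΦzero : ∀ (n : ℕ) (v : perp e), 1 ≤ ‖v‖ → Φ n v = 0 := by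
    intro n v hv
    have : ∀ σ, G n (σ, v) = 0 := by
      intro σ
      rw [hGval, if_neg]
      nlinarith [sq_nonneg σ]
    simp only [Φ, this, integral_zero]
  have hΦeq : ∀ v : perp e, ‖v‖ < 1 → ∀ᶠ n : ℕ in atTop, n * Φ n v = δ v ^ 2 := by
    intro v hv
    have hpos : 0 < 1 - ‖v‖ ^ 2 := by nlinarith [norm_nonneg v]
    obtain ⟨N, hN⟩ := exists_nat_gt ((|δ v| + 1) ^ 2 / (1 - ‖v‖ ^ 2))
    filter_upwards [eventually_ge_atTop (N + 1)] with n hn
    have hn1 : (1 : ℝ) ≤ n := by
      have : 1 ≤ n := by omega
      exact_mod_cast this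
    have hn' : (0 : ℝ) < n := by linarith
    have hNn : (N : ℝ) ≤ n := by
      have : N ≤ n := by omega
      exact_mod_cast this
    have h1 : Φ n v = ∫ σ : ℝ, max (|δ v| - n * |σ|) 0 := by
      simp only [Φ]
      congr 1
      ext σ
      rw [hGval]
      split_ifs with h
      · rfl
      · symm
        apply max_eq_right
        by_contra hcon
        apply h
        have h2 : n * |σ| < |δ v| := by linarith
        have h3 : (|δ v| + 1) ^ 2 < n * (1 - ‖v‖ ^ 2) := by
          rw [div_lt_iff₀ hpos] at hN
          nlinarith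
        have h4 : n ^ 2 * σ ^ 2 < |δ v| ^ 2 + 1 := by
          have : (n * |σ|) ^ 2 ≤ |δ v| ^ 2 := by
            apply pow_le_pow_left₀ (by positivity) h2.le
          rw [mul_pow, sq_abs] at this
          linarith
        have h5 : (n : ℝ) * (1 - ‖v‖ ^ 2) ≤ n ^ 2 * (1 - ‖v‖ ^ 2) := by nlinarith
        have h6 : (n : ℝ) ^ 2 * σ ^ 2 < n ^ 2 * (1 - ‖v‖ ^ 2) := by
          nlinarith [abs_nonneg (δ v)]
        have h7 : σ ^ 2 < 1 - ‖v‖ ^ 2 := lt_of_mul_lt_mul_left h6 (by positivity)
        linarith
    rw [h1, integral_tent (abs_nonneg _) hn', sq_abs]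
    field_simp
  have hlim : Tendsto (fun n : ℕ => ∫ v, (n : ℝ) * Φ n v) atTop
      (𝓝 (∫ v, (ball (0 : perp e) 1).indicator (fun v => δ (v : E) ^ 2) v)) := by
    have hδV : Continuous fun v : perp e => δ (v : E) ^ 2 := by fun_prop
    have hb : Integrable ((ball (0 : perp e) 1).indicator fun v => δ (v : E) ^ 2) :=
      (integrable_indicator_iff measurableSet_ball).2 (integrableOn_ball hδV)
    refine tendsto_integral_filter_of_dominated_convergence _ ?_ ?_ hb ?_
    · refine Eventually.of_forall fun n => ?_
      exact ((hGint n).integral_prod_right).aestronglyMeasurable.const_mul _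
    · filter_upwards [eventually_gt_atTop 0] with n hn
      refine Eventually.of_forall fun v => ?_
      have hn' : (0 : ℝ) < n := by exact_mod_cast hn
      rw [Real.norm_eq_abs, abs_of_nonneg (mul_nonneg hn'.le (hΦ0 n v))]
      by_cases hv : ‖v‖ < 1
      · rw [indicator_of_mem (by simpa using hv)]
        exact hΦle n v hn hv
      · rw [indicator_of_notMem (by simpa using hv), hΦzero n v (not_lt.1 hv), mul_zero]
    · refine Eventually.of_forall fun v => ?_
      by_cases hv : ‖v‖ < 1
      · rw [indicator_of_mem (by simpa using hv)]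
        exact tendsto_const_nhds.congr' ((hΦeq v hv).mono fun n hn => hn.symm)
      · rw [indicator_of_notMem (by simpa using hv)]
        refine tendsto_const_nhds.congr fun n => ?_
        rw [hΦzero n v (not_lt.1 hv), mul_zero]
  rw [← integral_indicator measurableSet_ball]
  refine hlim.congr fun n => ?_
  rw [integral_const_mul, ← hint]

end Pool.Agent.helper70.MW
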