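import Mathlib

/-!
# Symmetrizations of compact convex sets: definitions
-/

set_option autoImplicit false

open MeasureTheory Metric Set
open scoped RealInnerProductSpace

namespace Pool.Agent.helper70.MW

section general

variable {E : Type*} [NormedAddCommGroup E] [InnerProductSpace ℝ E]

/-- Nonempty compact convex sets. -/
def IsConvexCompact (K : Set E) : Prop := K.Nonempty ∧ IsCompact K ∧ Convex ℝ K

/-- Convex bodies: compact convex sets with nonempty interior. -/
def IsConvexBody (K : Set E) : Prop := IsCompact K ∧ Convex ℝ K ∧ (interior K).Nonempty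

/-- The support function `h_K(u) = sup_{x ∈ K} ⟨x, u⟩`. -/
noncomputable def supportFn (K : Set E) (u : E) : ℝ := sSup ((fun x => ⟪x, u⟫) '' K)

/-- `K` is `H`-symmetric: the reflection in `H` maps `K` onto itself. -/
def IsSymm (H : Submodule ℝ E) [H.HasOrthogonalProjection] (K : Set E) : Prop :=
  H.reflection '' K = K

/-- `D` is a symmetrization of the class `B` with respect to `H`. -/
def IsSymmetrization (B : Set E → Prop) (H : Submodule ℝ E) [H.HasOrthogonalProjection]
    (D : Set E → Set E) : Prop := ∀ K, B K → B (D K) ∧ IsSymm H (D K)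

/-- `D` is monotonic on the class `B`. -/
def IsMonotonic (B : Set E → Prop) (D : Set E → Set E) : Prop :=
  ∀ K L, B K → B L → K ⊆ L → D K ⊆ D L

/-- `D` is invariant on `H`-symmetric sets. -/
def FixesSymm (B : Set E → Prop) (H : Submodule ℝ E) [H.HasOrthogonalProjection]
    (D : Set E → Set E) : Prop := ∀ K, B K → IsSymm H K → D K = K

/-- `D` is invariant under translations orthogonal to `H` of `H`-symmetric sets. -/
def TranslationInvariant (B : Set E → Prop) (H : Submodule ℝ E) [H.HasOrthogonalProjection]
    (D : Set E → Set E) : Prop :=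
  ∀ K, B K → IsSymm H K → ∀ y ∈ Hᗮ, D ((fun x => x + y) '' K) = D K

end general

/-- The mean width of a compact convex subset of `ℝⁿ`. -/
noncomputable def meanWidth {n : ℕ} (K : Set (EuclideanSpace ℝ (Fin n))) : ℝ :=
  2 / (n * (volume : Measure (EuclideanSpace ℝ (Fin n))).real (ball 0 1)) *
    ∫ u : sphere (0 : EuclideanSpace ℝ (Fin n)) 1, supportFn K u
      ∂(volume : Measure (EuclideanSpace ℝ (Fin n))).toSphere

/-- `D` preserves the mean width on the class `B`. -/
def PreservesMeanWidth {n : ℕ} (B : Set (EuclideanSpace ℝ (Fin n)) → Prop)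
    (D : Set (EuclideanSpace ℝ (Fin n)) → Set (EuclideanSpace ℝ (Fin n))) : Prop :=
  ∀ K, B K → meanWidth (D K) = meanWidth K

end Pool.Agent.helper70.MW
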