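import Pool.Agent.helper70.MW.Rigid

/-!
# Rigidity of the symmetrization on sections
-/

set_option autoImplicit false
set_option linter.unusedSectionVars false
set_option linter.unusedVariables false

open MeasureTheory Metric Set Module Filter Topology
open scoped RealInnerProductSpace Pointwise

namespace Pool.Agent.helper70.MW

variable {E : Type*} [NormedAddCommGroup E] [InnerProductSpace ℝ E] [FiniteDimensional ℝ E]
  [MeasurableSpace E] [BorelSpace E]

/-- The hypotheses of the rigidity theorem. -/
structure Good (H : Submodule ℝ E) (D : Set E → Set E) : Prop where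
  cc : ∀ K, IsConvexCompact K → IsConvexCompact (D K)
  symm : ∀ K, IsConvexCompact K → IsSymm H (D K)
  mono : ∀ K L, IsConvexCompact K → IsConvexCompact L → K ⊆ L → D K ⊆ D L
  width : ∀ K, IsConvexCompact K → ballWidth (D K) = ballWidth K
  fix : ∀ K, IsConvexCompact K → IsSymm H K → D K = K

theorem supp_reflection {H : Submodule ℝ E} {K : Set E} (hs : IsSymm H K) (u : E) :
    supportFn K (H.reflection u) = supportFn K u := by
  have h := supp_image_isometry (K := K) H.reflection u
  rw [hs, H.reflection_symm] at h
  exact h.symm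

theorem isSymm_of_supp {H : Submodule ℝ E} {K : Set E} (hK : IsConvexCompact K)
    (h : ∀ u, supportFn K (H.reflection u) = supportFn K u) : IsSymm H K := by
  have hcc : IsConvexCompact (H.reflection '' K) :=
    ⟨hK.1.image _, hK.2.1.image H.reflection.continuous,
      hK.2.2.linear_image H.reflection.toLinearEquiv.toLinearMap⟩
  refine eq_of_supp_eq hcc hK fun u => ?_
  rw [supp_image_isometry, H.reflection_symm, h]

theorem inner_reflection {H : Submodule ℝ E} (x y : E) :
    ⟪H.reflection x, y⟫ = ⟪x, H.reflection y⟫ := by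
  rw [← H.reflection.inner_map_map x (H.reflection y), H.reflection_reflection]

theorem hull_union_cc {K L : Set E} (hK : IsConvexCompact K) (hL : IsConvexCompact L) :
    IsConvexCompact (hull (K ∪ L)) :=
  hull_convexCompact (hK.1.mono subset_union_left) (hK.2.1.union hL.2.1)

theorem supp_hull_union {K L : Set E} (hK : IsConvexCompact K) (hL : IsConvexCompact L) (u : E) :
    supportFn (hull (K ∪ L)) u = max (supportFn K u) (supportFn L u) := by
  rw [supp_hull (hK.1.mono subset_union_left) (hK.2.1.union hL.2.1) (hull_union_cc hK hL).2.1,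
    supp_union hK.1 hK.2.1 hL.1 hL.2.1]

theorem reflection_image_cc (H : Submodule ℝ E) {K : Set E} (hK : IsConvexCompact K) :
    IsConvexCompact (H.reflection '' K) :=
  ⟨hK.1.image _, hK.2.1.image H.reflection.continuous,
      hK.2.2.linear_image H.reflection.toLinearEquiv.toLinearMap⟩

theorem slab_convex (e : E) (t : ℝ) : Convex ℝ {x : E | ⟪e, x⟫ = t} := by
  have : {x : E | ⟪e, x⟫ = t} = {x | (innerₛₗ ℝ e) x = t} := by
    ext x; simp
  rw [this]
  exact convex_hyperplane (innerₛₗ ℝ e).isLinear _

theorem slab_closed (e : E) (t : ℝ) : IsClosed {x : E | ⟪e, x⟫ = t} :=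
  isClosed_eq (by fun_prop) continuous_const

/-- The image of a set in a slab orthogonal to a direction of `H` stays in the slab. -/
theorem Good.slab {H : Submodule ℝ E} {D : Set E → Set E} (hD : Good H D) {e : E} (heH : e ∈ H)
    {C : Set E} {t : ℝ} (hC : IsConvexCompact C) (hCt : ∀ x ∈ C, ⟪e, x⟫ = t) :
    ∀ x ∈ D C, ⟪e, x⟫ = t := by
  have hR := reflection_image_cc H hC
  have hQ := hull_union_cc hC hR
  have hQs : IsSymm H (hull (C ∪ H.reflection '' C)) := by
    refine isSymm_of_supp hQ fun u => ?_
    rw [supp_hull_union hC hR, supp_hull_union hC hR, supp_image_isometry, supp_image_isometry,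
      H.reflection_symm, H.reflection_reflection, max_comm]
  have h1 : D C ⊆ hull (C ∪ H.reflection '' C) := by
    rw [← hD.fix _ hQ hQs]
    exact hD.mono _ _ hC hQ (subset_union_left.trans (subset_hull _))
  have h2 : hull (C ∪ H.reflection '' C) ⊆ {x | ⟪e, x⟫ = t} := by
    refine hull_min ?_ (slab_convex e t) (slab_closed e t)
    rintro x (hx | ⟨x, hx, rfl⟩)
    · exact hCt x hx
    · change ⟪e, H.reflection x⟫ = t
      rw [← inner_reflection, H.reflection_mem_subspace_eq_self heH]
      exact hCt x hx
  exact fun x hx => h2 (h1 hx)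

theorem supp_slab {e : E} {K : Set E} {t : ℝ} (hK : IsConvexCompact K)
    (hs : ∀ x ∈ K, ⟪e, x⟫ = t) (σ : ℝ) (v : E) :
    supportFn K (σ • e + v) = σ * t + supportFn K v := by
  apply le_antisymm
  · refine supp_le hK.1 fun x hx => ?_
    rw [inner_add_right, inner_smul_right, real_inner_comm, hs x hx]
    have := le_supp hK.2.1 hx v
    linarith
  · obtain ⟨x, hx, hxv⟩ := exists_supp hK.2.1 hK.1 v
    have := le_supp hK.2.1 hx (σ • e + v)
    rw [inner_add_right, inner_smul_right, real_inner_comm, hs x hx, hxv] at this
    exact this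

theorem integral_abs_sub_supp {K L : Set E} (hK : IsConvexCompact K) (hL : IsConvexCompact L) :
    ∫ x in ball (0 : E) 1, |supportFn K x - supportFn L x| =
      2 * ballWidth (hull (K ∪ L)) - ballWidth K - ballWidth L := by
  have h1 : ∀ x, |supportFn K x - supportFn L x| =
      2 * supportFn (hull (K ∪ L)) x - supportFn K x - supportFn L x := by
    intro x
    rw [supp_hull_union hK hL]
    rcases le_total (supportFn K x) (supportFn L x) with h | h
    · rw [max_eq_right h, abs_of_nonpos (by linarith)]; ring
    · rw [max_eq_left h, abs_of_nonneg (by linarith)]; ring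
  have hQ := supp_continuous (hull_union_cc hK hL).1 (hull_union_cc hK hL).2.1
  have hKc := supp_continuous hK.1 hK.2.1
  have hLc := supp_continuous hL.1 hL.2.1
  simp only [h1]
  have hc1 : Continuous fun x => 2 * supportFn (hull (K ∪ L)) x := by fun_prop
  have hc2 : Continuous fun x => 2 * supportFn (hull (K ∪ L)) x - supportFn K x := by fun_prop
  rw [integral_sub (integrableOn_ball hc2) (integrableOn_ball hLc),
    integral_sub (integrableOn_ball hc1) (integrableOn_ball hKc), integral_const_mul]
  rfl

/-- The `L¹` inequality. -/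
theorem Good.l1 {H : Submodule ℝ E} {D : Set E → Set E} (hD : Good H D) {C L : Set E}
    (hC : IsConvexCompact C) (hL : IsConvexCompact L) (hLs : IsSymm H L) :
    ∫ x in ball (0 : E) 1, |supportFn (D C) x - supportFn L x| ≤
      ∫ x in ball (0 : E) 1, |supportFn C x - supportFn L x| := by
  have hG := hD.cc C hC
  have hQ := hull_union_cc hC hL
  rw [integral_abs_sub_supp hG hL, integral_abs_sub_supp hC hL, hD.width C hC]
  have h1 : hull (D C ∪ L) ⊆ D (hull (C ∪ L)) := by
    refine hull_min (union_subset ?_ ?_) (hD.cc _ hQ).2.2 (hD.cc _ hQ).2.1.isClosed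
    · exact hD.mono _ _ hC hQ (subset_union_left.trans (subset_hull _))
    · conv_lhs => rw [← hD.fix L hL hLs]
      exact hD.mono _ _ hL hQ (subset_union_right.trans (subset_hull _))
  have h2 := ballWidth_mono (hull_union_cc hG hL) (hD.cc _ hQ) h1
  rw [hD.width _ hQ] at h2
  linarith

theorem isSymm_translate {H : Submodule ℝ E} {e : E} (heH : e ∈ H) {L : Set E}
    (hL : IsConvexCompact L) (hLs : IsSymm H L) :
    IsSymm H ((fun x => x + e) '' L) := by
  refine isSymm_of_supp (hL.image_add e) fun u => ?_
  rw [supp_image_add hL.1 hL.2.1, supp_image_add hL.1 hL.2.1, supp_reflection hLs,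
    ← inner_reflection, H.reflection_mem_subspace_eq_self heH]

theorem integrableOn_ball_perp {e : E} {f : perp e → ℝ} (hf : Continuous f) :
    IntegrableOn f (ball (0 : perp e) 1) := integrableOn_ball hf

/-- The key inequality. -/
theorem Good.key {H : Submodule ℝ E} {D : Set E → Set E} (hD : Good H D) {e : E} (he : ‖e‖ = 1)
    (heH : e ∈ H) {C : Set E} {t : ℝ} (hC : IsConvexCompact C) (hCt : ∀ x ∈ C, ⟪e, x⟫ = t)
    {L : Set E} (hL : IsConvexCompact L) (hL0 : ∀ x ∈ L, ⟪e, x⟫ = 0) (hLs : IsSymm H L) :
    ∫ v in ball (0 : perp e) 1, (supportFn (D C) (v : E) ^ 2 - supportFn C (v : E) ^ 2) ≤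
      2 * ∫ v in ball (0 : perp e) 1,
        (supportFn (D C) (v : E) - supportFn C (v : E)) * supportFn L (v : E) := by
  have hG := hD.cc C hC
  have hGt := hD.slab heH hC hCt
  have hgc := supp_continuous hG.1 hG.2.1
  have hfc := supp_continuous hC.1 hC.2.1
  have hlc := supp_continuous hL.1 hL.2.1
  have hev : ∀ v : perp e, ⟪e, (v : E)⟫ = 0 := fun v =>
    Submodule.mem_orthogonal_singleton_iff_inner_right.1 v.2
  have key := sq_integral_le (e := e) he
    (δ₁ := fun x => supportFn (D C) x - supportFn L x - t * ⟪e, x⟫)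
    (δ₂ := fun x => supportFn C x - supportFn L x - t * ⟪e, x⟫) (by fun_prop) (by fun_prop)
    (fun σ v => by
      simp only [supp_slab hG hGt, supp_slab hL hL0, inner_decomp he, hev]
      ring)
    (fun σ v => by
      simp only [supp_slab hC hCt, supp_slab hL hL0, inner_decomp he, hev]
      ring)
    (fun s => by
      have hmem : (t + s) • e ∈ H := H.smul_mem _ heH
      have h1 := hD.l1 hC (hL.image_add ((t + s) • e)) (isSymm_translate hmem hL hLs)
      simp only [supp_image_add hL.1 hL.2.1, inner_smul_left, RCLike.conj_to_real] at h1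
      have e1 : ∀ x, supportFn (D C) x - (supportFn L x + (t + s) * ⟪e, x⟫) =
        supportFn (D C) x - supportFn L x - t * ⟪e, x⟫ - s * ⟪e, x⟫ := fun x => by ring
      have e2 : ∀ x, supportFn C x - (supportFn L x + (t + s) * ⟪e, x⟫) =
        supportFn C x - supportFn L x - t * ⟪e, x⟫ - s * ⟪e, x⟫ := fun x => by ring
      simp only [e1, e2] at h1
      exact h1)
  simp only [hev, mul_zero, sub_zero] at key
  have i1 : Continuous fun v : perp e => (supportFn (D C) (v : E) - supportFn L (v : E)) ^ 2 := by
    fun_prop
  have i2 : Continuous fun v : perp e => (supportFn C (v : E) - supportFn L (v : E)) ^ 2 := by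
    fun_prop
  have i3 : Continuous fun v : perp e =>
      (supportFn (D C) (v : E) ^ 2 - supportFn C (v : E) ^ 2) := by
    fun_prop
  have i4 : Continuous fun v : perp e =>
      2 * ((supportFn (D C) (v : E) - supportFn C (v : E)) * supportFn L (v : E)) := by
    fun_prop
  have h3 : (∫ v in ball (0 : perp e) 1, (supportFn (D C) (v : E) - supportFn L (v : E)) ^ 2) -
      (∫ v in ball (0 : perp e) 1, (supportFn C (v : E) - supportFn L (v : E)) ^ 2) =
      (∫ v in ball (0 : perp e) 1, (supportFn (D C) (v : E) ^ 2 - supportFn C (v : E) ^ 2)) -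
      (∫ v in ball (0 : perp e) 1,
        2 * ((supportFn (D C) (v : E) - supportFn C (v : E)) * supportFn L (v : E))) := by
    rw [← integral_sub (integrableOn_ball i1) (integrableOn_ball i2),
      ← integral_sub (integrableOn_ball i3) (integrableOn_ball i4)]
    congr 1
    ext v
    ring
  rw [integral_const_mul] at h3
  linarith

end Pool.Agent.helper70.MW
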