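import Pool.Agent.helper70.MW.Fibre

/-!
# Orthogonality and the rigidity theorem for compact convex sets
-/

set_option autoImplicit false
set_option linter.unusedSectionVars false
set_option linter.unusedVariables false

open MeasureTheory Metric Set Module Filter Topology
open scoped RealInnerProductSpace Pointwise

namespace Pool.Agent.helper70.MW

variable {E : Type*} [NormedAddCommGroup E] [InnerProductSpace ℝ E] [FiniteDimensional ℝ E]
  [MeasurableSpace E] [BorelSpace E]

/-- The set of all `x` orthogonal to `e` such that `x + K` is contained in the ball of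
radius `T`. -/
def polarT (e : E) (K : Set E) (T : ℝ) : Set E := {x | ⟪e, x⟫ = 0 ∧ ∀ k ∈ K, ‖x + k‖ ≤ T}

theorem polarT_cc {e : E} {K : Set E} {T ρ : ℝ} (hK : IsConvexCompact K)
    (hρ : ∀ k ∈ K, ‖k‖ ≤ ρ) (hT : ρ ≤ T) : IsConvexCompact (polarT e K T) := by
  have heq : polarT e K T = {x | ⟪e, x⟫ = 0} ∩ ⋂ k ∈ K, closedBall (-k) T := by
    ext x
    simp only [polarT, mem_inter_iff, mem_setOf_eq, mem_iInter, mem_closedBall, dist_eq_norm,
      sub_neg_eq_add]
  refine ⟨⟨0, ?_⟩, ?_, ?_⟩
  · refine ⟨by simp, fun k hk => ?_⟩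
    rw [zero_add]
    exact (hρ k hk).trans hT
  · obtain ⟨k, hk⟩ := hK.1
    refine (isCompact_closedBall (-k) T).of_isClosed_subset ?_ ?_
    · rw [heq]
      exact (slab_closed e 0).inter (isClosed_biInter fun k _ => isClosed_closedBall)
    · rintro x ⟨_, hx⟩
      rw [mem_closedBall, dist_eq_norm, sub_neg_eq_add]
      exact hx k hk
  · rw [heq]
    exact (slab_convex e 0).inter (convex_iInter₂ fun k _ => convex_closedBall _ _)

theorem polarT_symm {H : Submodule ℝ E} {e : E} (heH : e ∈ H) {K : Set E} (hs : IsSymm H K)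
    (T : ℝ) : IsSymm H (polarT e K T) := by
  have h1 : ∀ x ∈ polarT e K T, H.reflection x ∈ polarT e K T := by
    rintro x ⟨hx0, hx⟩
    refine ⟨?_, fun k hk => ?_⟩
    · rw [← inner_reflection, H.reflection_mem_subspace_eq_self heH, hx0]
    · have hk' : k ∈ H.reflection '' K := by rw [hs]; exact hk
      obtain ⟨k', hk'K, rfl⟩ := hk'
      rw [← map_add, LinearIsometryEquiv.norm_map]
      exact hx k' hk'K
  apply Subset.antisymm
  · rintro _ ⟨x, hx, rfl⟩
    exact h1 x hx
  · intro x hx
    exact ⟨H.reflection x, h1 x hx, H.reflection_reflection x⟩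

theorem supp_polarT_le {e : E} {K : Set E} {T ρ : ℝ} (hK : IsConvexCompact K)
    (hρ : ∀ k ∈ K, ‖k‖ ≤ ρ) (hT : ρ ≤ T) (v : E) :
    supportFn (polarT e K T) v ≤ T * ‖v‖ - supportFn K v := by
  refine supp_le (polarT_cc hK hρ hT).1 fun x hx => ?_
  obtain ⟨k, hk, hkv⟩ := exists_supp hK.2.1 hK.1 v
  rw [← hkv]
  have h1 : ⟪x + k, v⟫ ≤ ‖x + k‖ * ‖v‖ := real_inner_le_norm _ _
  have h2 := mul_le_mul_of_nonneg_right (hx.2 k hk) (norm_nonneg v)
  rw [inner_add_left] at h1
  linarith

theorem le_supp_polarT {e : E} {K : Set E} {T ρ : ℝ} (hK : IsConvexCompact K)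
    (hK0 : ∀ k ∈ K, ⟪e, k⟫ = 0)
    (hρ0 : 0 < ρ) (hρ : ∀ k ∈ K, ‖k‖ ≤ ρ) (hT : 2 * ρ ≤ T) {v : E} (hv : ⟪e, v⟫ = 0) :
    T * ‖v‖ - supportFn K v - 4 * ρ ^ 2 / T * ‖v‖ ≤ supportFn (polarT e K T) v := by
  have hT' : ρ ≤ T := by linarith
  have hT0 : 0 < T := by linarith
  rcases eq_or_ne v 0 with rfl | hv0
  · rw [supp_zero hK.1 hK.2.1, supp_zero (polarT_cc hK hρ hT').1 (polarT_cc hK hρ hT').2.1]
    simp
  have hvn : 0 < ‖v‖ := norm_pos_iff.2 hv0
  obtain ⟨k, hk, hkv⟩ := exists_supp hK.2.1 hK.1 v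
  set c : ℝ := 4 * ρ ^ 2 / T with hc
  have hcT : c * T = 4 * ρ ^ 2 := by rw [hc]; field_simp
  have hc0 : 0 < c := by positivity
  have hcle : c ≤ T := by
    rw [hc, div_le_iff₀ hT0]
    nlinarith
  have hmem : ((T - c) / ‖v‖) • v - k ∈ polarT e K T := by
    refine ⟨?_, fun k' hk' => ?_⟩
    · rw [inner_sub_right, inner_smul_right, hv, hK0 k hk]; simp
    · have h1 : ((T - c) / ‖v‖) • v - k + k' = ((T - c) / ‖v‖) • v + (k' - k) := by abel
      have h2 : ⟪v, k' - k⟫ ≤ 0 := by
        rw [inner_sub_right, real_inner_comm, real_inner_comm k, hkv]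
        have := le_supp hK.2.1 hk' v
        linarith
      have h3 : ‖k' - k‖ ≤ 2 * ρ := by
        have := norm_sub_le k' k
        have := hρ k hk
        have := hρ k' hk'
        linarith
      have h4 : ‖((T - c) / ‖v‖) • v + (k' - k)‖ ^ 2 ≤ T ^ 2 := by
        rw [norm_add_sq_real, norm_smul, inner_smul_left, RCLike.conj_to_real, Real.norm_eq_abs,
          abs_of_nonneg (div_nonneg (by linarith) hvn.le), div_mul_cancel₀ _ hvn.ne']
        have h5 : (T - c) / ‖v‖ * ⟪v, k' - k⟫ ≤ 0 :=
          mul_nonpos_of_nonneg_of_nonpos (div_nonneg (by linarith) hvn.le) h2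
        have h6 : ‖k' - k‖ ^ 2 ≤ (2 * ρ) ^ 2 := pow_le_pow_left₀ (norm_nonneg _) h3 2
        have h7 : c * c ≤ c * T := mul_le_mul_of_nonneg_left hcle hc0.le
        nlinarith
      rw [h1]
      exact abs_le_of_sq_le_sq' h4 hT0.le |>.2
  have h1 := le_supp (polarT_cc hK hρ hT').2.1 hmem v
  rw [inner_sub_left, inner_smul_left, RCLike.conj_to_real, real_inner_self_eq_norm_sq, hkv] at h1
  have h2 : (T - c) / ‖v‖ * ‖v‖ ^ 2 = (T - c) * ‖v‖ := by field_simp
  rw [h2] at h1
  linarith

theorem nonneg_of_forall_le {a b c : ℝ} (h : ∀ r : ℝ, 1 ≤ r → a ≤ r * b + c) : 0 ≤ b := by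
  by_contra hb
  rw [not_le] at hb
  have h1 := h (max 1 ((c - a + 1) / (-b))) (le_max_left _ _)
  have h2 : (c - a + 1) / (-b) ≤ max 1 ((c - a + 1) / (-b)) := le_max_right _ _
  rw [div_le_iff₀ (by linarith)] at h2
  nlinarith

theorem smul_cc {K : Set E} (hK : IsConvexCompact K) (r : ℝ) : IsConvexCompact (r • K) :=
  ⟨hK.1.image _, hK.2.1.image (by fun_prop), hK.2.2.smul _⟩

theorem smul_symm {H : Submodule ℝ E} {K : Set E} (hs : IsSymm H K) (r : ℝ) :
    IsSymm H (r • K) := by
  unfold IsSymm
  conv_rhs => rw [← hs]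
  rw [← image_smul, ← image_smul, image_image, image_image]
  simp

/-- Orthogonality. -/
theorem Good.orth {H : Submodule ℝ E} {D : Set E → Set E} (hD : Good H D) {e : E} (he : ‖e‖ = 1)
    [Nontrivial (perp e)]
    (heH : e ∈ H) {C : Set E} {t : ℝ} (hC : IsConvexCompact C) (hCt : ∀ x ∈ C, ⟪e, x⟫ = t)
    {K : Set E} (hK : IsConvexCompact K) (hK0 : ∀ x ∈ K, ⟪e, x⟫ = 0) (hKs : IsSymm H K) :
    ∫ v in ball (0 : perp e) 1,
        (supportFn (D C) (v : E) - supportFn C (v : E)) * supportFn K (v : E) = 0 := by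
  have hG := hD.cc C hC
  have hGt := hD.slab heH hC hCt
  have hgc := supp_continuous hG.1 hG.2.1
  have hfc := supp_continuous hC.1 hC.2.1
  have hkc := supp_continuous hK.1 hK.2.1
  have hev : ∀ v : perp e, ⟪e, (v : E)⟫ = 0 := fun v =>
    Submodule.mem_orthogonal_singleton_iff_inner_right.1 v.2
  obtain ⟨ρ', hρ'⟩ := hK.2.1.isBounded.exists_norm_le
  set ρ : ℝ := max ρ' 1 with hρdef
  have hρ0 : 0 < ρ := lt_of_lt_of_le one_pos (le_max_right _ _)
  have hρ : ∀ k ∈ K, ‖k‖ ≤ ρ := fun k hk => (hρ' k hk).trans (le_max_left _ _)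
  set ξ : perp e → ℝ := fun v => supportFn (D C) (v : E) - supportFn C (v : E) with hξ
  have hξc : Continuous ξ := by rw [hξ]; fun_prop
  set A : ℝ := ∫ v in ball (0 : perp e) 1,
    (supportFn (D C) (v : E) ^ 2 - supportFn C (v : E) ^ 2) with hA
  set I : ℝ := ∫ v in ball (0 : perp e) 1, ξ v * supportFn K (v : E) with hI
  set M : ℝ := ∫ v in ball (0 : perp e) 1, |ξ v| * ‖v‖ with hM
  -- the weighted mean of `ξ` vanishes
  have hzero : ∫ v in ball (0 : perp e) 1, ξ v * ‖v‖ = 0 := by
    refine integral_norm_eq_zero (e := e) he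
      (ζ := fun x => (supportFn (D C) x - supportFn C x)) (by fun_prop)
      (fun r hr u => by
        simp only [supp_homog hG r hr, supp_homog hC r hr]; ring)
      (fun σ v => by
        simp only [supp_slab hG hGt, supp_slab hC hCt]
        ring) ?_
    rw [integral_sub (supp_integrable hG) (supp_integrable hC)]
    have := hD.width C hC
    unfold ballWidth at this
    linarith
  -- the first inequality
  have h1 : ∀ r : ℝ, 1 ≤ r → A ≤ r * (2 * I) + 0 := by
    intro r hr
    have hr0 : 0 ≤ r := by linarith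
    have h2 := hD.key he heH hC hCt (smul_cc hK r) (by
      rintro _ ⟨x, hx, rfl⟩
      simp only [inner_smul_right, hK0 x hx, mul_zero]) (smul_symm hKs r)
    simp only [supp_smul_set hK.1 hK.2.1 hr0] at h2
    have h3 : ∫ v in ball (0 : perp e) 1,
        (supportFn (D C) (v : E) - supportFn C (v : E)) * (r * supportFn K (v : E)) = r * I := by
      rw [hI, ← integral_const_mul]
      congr 1
      ext v
      simp only [hξ]
      ring
    rw [h3] at h2
    linarith
  -- the second inequality
  have h2 : ∀ r : ℝ, 1 ≤ r → A ≤ r * (-(2 * I)) + 4 * ρ * M := by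
    intro r hr
    have hr0 : 0 < r := by linarith
    have hrr : IsConvexCompact (r • K) := smul_cc hK r
    have hr00 : ∀ x ∈ r • K, ⟪e, x⟫ = 0 := by
      rintro _ ⟨x, hx, rfl⟩
      simp only [inner_smul_right, hK0 x hx, mul_zero]
    have hrρ : ∀ x ∈ r • K, ‖x‖ ≤ r * ρ := by
      rintro _ ⟨x, hx, rfl⟩
      simp only [norm_smul, Real.norm_eq_abs, abs_of_pos hr0]
      exact mul_le_mul_of_nonneg_left (hρ x hx) hr0.le
    have hrρ0 : 0 < r * ρ := by positivity
    set T : ℝ := 2 * r ^ 2 * ρ with hT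
    have hT1 : 2 * (r * ρ) ≤ T := by
      rw [hT]
      nlinarith
    have hT2 : r * ρ ≤ T := by linarith
    have hT0 : 0 < T := by linarith
    have hcc := polarT_cc (e := e) hrr hrρ hT2
    have hlc := supp_continuous hcc.1 hcc.2.1
    have h3 := hD.key he heH hC hCt hcc (fun x hx => hx.1) (polarT_symm heH (smul_symm hKs r) T)
    have hconst : 4 * (r * ρ) ^ 2 / T = 2 * ρ := by
      rw [hT]; field_simp; ring
    have h4 : ∫ v in ball (0 : perp e) 1,
        (supportFn (D C) (v : E) - supportFn C (v : E)) * supportFn (polarT e (r • K) T) (v : E) ≤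
        ∫ v in ball (0 : perp e) 1,
          (T * (ξ v * ‖v‖) - r * (ξ v * supportFn K (v : E)) + 2 * ρ * (|ξ v| * ‖v‖)) := by
      refine setIntegral_mono (integrableOn_ball (by fun_prop)) (integrableOn_ball (by fun_prop))
        fun v => ?_
      have h5 := supp_polarT_le (e := e) hrr hrρ hT2 (v : E)
      have h6 := le_supp_polarT hrr hr00 hrρ0 hrρ hT1 (hev v)
      rw [supp_smul_set hK.1 hK.2.1 hr0.le] at h5 h6
      rw [hconst] at h6
      change ξ v * _ ≤ _
      have hn : ‖(v : E)‖ = ‖v‖ := rfl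
      rw [hn] at h5 h6
      have h7 : |supportFn (polarT e (r • K) T) (v : E) -
          (T * ‖v‖ - r * supportFn K (v : E))| ≤ 2 * ρ * ‖v‖ := by
        rw [abs_le]
        constructor
        · linarith
        · have : 0 ≤ 2 * ρ * ‖v‖ := by positivity
          linarith
      have h8 : ξ v * (supportFn (polarT e (r • K) T) (v : E) -
          (T * ‖v‖ - r * supportFn K (v : E))) ≤ |ξ v| * (2 * ρ * ‖v‖) := by
        calc _ ≤ |ξ v * (supportFn (polarT e (r • K) T) (v : E) -
          (T * ‖v‖ - r * supportFn K (v : E)))| := le_abs_self _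
          _ = |ξ v| * |supportFn (polarT e (r • K) T) (v : E) -
          (T * ‖v‖ - r * supportFn K (v : E))| := abs_mul _ _
          _ ≤ _ := mul_le_mul_of_nonneg_left h7 (abs_nonneg _)
      nlinarith
    have c1 : Continuous fun v : perp e => T * (ξ v * ‖v‖) := by fun_prop
    have c2 : Continuous fun v : perp e => r * (ξ v * supportFn K (v : E)) := by fun_prop
    have c12 : Continuous fun v : perp e =>
      T * (ξ v * ‖v‖) - r * (ξ v * supportFn K (v : E)) := by fun_prop
    have c3 : Continuous fun v : perp e => 2 * ρ * (|ξ v| * ‖v‖) := by fun_prop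
    rw [integral_add (integrableOn_ball c12) (integrableOn_ball c3),
      integral_sub (integrableOn_ball c1) (integrableOn_ball c2), integral_const_mul,
      integral_const_mul, integral_const_mul, hzero, ← hI, ← hM] at h4
    linarith
  have h3 := nonneg_of_forall_le h1
  have h4 := nonneg_of_forall_le h2
  linarith

/-- The reflection induced on the hyperplane. -/
noncomputable def reflPerp (H : Submodule ℝ E) {e : E} (heH : e ∈ H) : perp e ≃ₗᵢ[ℝ] perp e :=
  (H.reflection.submoduleMap (perp e)).trans (LinearIsometryEquiv.ofEq _ _ (by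
    ext x
    simp only [Submodule.mem_map, Submodule.mem_orthogonal_singleton_iff_inner_right]
    constructor
    · rintro ⟨y, hy, rfl⟩
      change ⟪e, H.reflection y⟫ = 0
      rw [← inner_reflection, H.reflection_mem_subspace_eq_self heH, hy]
    · intro hx
      refine ⟨H.reflection x, ?_, H.reflection_reflection x⟩
      rw [← inner_reflection, H.reflection_mem_subspace_eq_self heH, hx]))

theorem reflPerp_apply (H : Submodule ℝ E) {e : E} (heH : e ∈ H) (v : perp e) :
    ((reflPerp H heH v : perp e) : E) = H.reflection (v : E) := rfl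

/-- Rigidity for sets contained in a hyperplane orthogonal to a direction of `H`. -/
theorem Good.fibre {H : Submodule ℝ E} {D : Set E → Set E} (hD : Good H D) {e : E} (he : ‖e‖ = 1)
    [Nontrivial (perp e)] (heH : e ∈ H) {C : Set E} {t : ℝ} (hC : IsConvexCompact C)
    (hCt : ∀ x ∈ C, ⟪e, x⟫ = t) (hCs : IsSymm H C) {y : E} (hy : y ∈ Hᗮ) :
    D ((fun x => x + y) '' C) = C := by
  have hev : ∀ v : perp e, ⟪e, (v : E)⟫ = 0 := fun v =>
    Submodule.mem_orthogonal_singleton_iff_inner_right.1 v.2
  have hey : ⟪e, y⟫ = 0 := H.inner_right_of_mem_orthogonal heH hy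
  have hC' := hC.image_add y
  have hC't : ∀ x ∈ (fun x => x + y) '' C, ⟪e, x⟫ = t := by
    rintro _ ⟨x, hx, rfl⟩
    simp only [inner_add_right, hCt x hx, hey, add_zero]
  have hG := hD.cc _ hC'
  have hGt := hD.slab heH hC' hC't
  have hGs := hD.symm _ hC'
  have hmem : (-t) • e ∈ H := H.smul_mem _ heH
  have htr : ∀ (K : Set E), (∀ x ∈ K, ⟪e, x⟫ = t) →
      ∀ x ∈ (fun x => x + (-t) • e) '' K, ⟪e, x⟫ = 0 := by
    rintro K hKt _ ⟨x, hx, rfl⟩
    simp only [inner_add_right, inner_smul_right, hKt x hx, real_inner_self_eq_norm_sq, he]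
    ring
  have o1 := hD.orth he heH hC' hC't (hG.image_add ((-t) • e)) (htr _ hGt)
    (isSymm_translate hmem hG hGs)
  have o2 := hD.orth he heH hC' hC't (hC.image_add ((-t) • e)) (htr _ hCt)
    (isSymm_translate hmem hC hCs)
  simp only [supp_image_add hG.1 hG.2.1, supp_image_add hC.1 hC.2.1, inner_smul_left, hev,
    mul_zero, add_zero] at o1 o2
  have hgc := supp_continuous hG.1 hG.2.1
  have hcc := supp_continuous hC.1 hC.2.1
  set g : E → ℝ := supportFn (D ((fun x => x + y) '' C)) with hg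
  set h : E → ℝ := supportFn C with hh
  -- the mixed term vanishes
  have h3 : ∫ v in ball (0 : perp e) 1, ⟪y, (v : E)⟫ * (g v - h v) = 0 := by
    have h4 := setIntegral_ball_isometry (reflPerp H heH)
      (fun v : perp e => ⟪y, (v : E)⟫ * (g v - h v))
    have h5 : ∀ v : perp e, ⟪y, ((reflPerp H heH v : perp e) : E)⟫ *
        (g (reflPerp H heH v : perp e) - h (reflPerp H heH v : perp e)) =
        -(⟪y, (v : E)⟫ * (g v - h v)) := by
      intro v
      rw [reflPerp_apply, hg, hh, supp_reflection hGs, supp_reflection hCs, ← inner_reflection,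
        H.reflection_mem_subspace_orthogonalComplement_eq_neg hy, inner_neg_left]
      ring
    simp only [h5, integral_neg] at h4
    linarith
  have h4 : ∫ v in ball (0 : perp e) 1, (g v - h v) ^ 2 = 0 := by
    have c1 : Continuous fun v : perp e => (g (v : E) - (h (v : E) + ⟪y, (v : E)⟫)) * g (v : E) := by
      fun_prop
    have c2 : Continuous fun v : perp e => (g (v : E) - (h (v : E) + ⟪y, (v : E)⟫)) * h (v : E) := by
      fun_prop
    have c3 : Continuous fun v : perp e => ⟪y, (v : E)⟫ * (g (v : E) - h (v : E)) := by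
      fun_prop
    have c12 : Continuous fun v : perp e => (g (v : E) - (h (v : E) + ⟪y, (v : E)⟫)) * g (v : E) -
      (g (v : E) - (h (v : E) + ⟪y, (v : E)⟫)) * h (v : E) := by
      fun_prop
    calc ∫ v in ball (0 : perp e) 1, (g v - h v) ^ 2
        = ∫ v in ball (0 : perp e) 1, (((g (v : E) - (h (v : E) + ⟪y, (v : E)⟫)) * g (v : E) -
          (g (v : E) - (h (v : E) + ⟪y, (v : E)⟫)) * h (v : E)) +
            ⟪y, (v : E)⟫ * (g (v : E) - h (v : E))) := by
          congr 1
          ext v
          ring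
      _ = 0 := by
          rw [integral_add (integrableOn_ball c12) (integrableOn_ball c3),
            integral_sub (integrableOn_ball c1) (integrableOn_ball c2), o1, o2, h3]
          ring
  have h5 := eqOn_ball_of_integral (E := perp e) (f := fun _ => (0 : ℝ))
    (g := fun v : perp e => (g v - h v) ^ 2) continuous_const (by fun_prop)
    (fun v _ => sq_nonneg _) (by rw [h4]; simp)
  have h6 : ∀ v : perp e, g v = h v := by
    refine eq_of_eqOn_ball (E := perp e) (f := fun v : perp e => g v) (g := fun v : perp e => h v)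
      (fun r hr u => by
        simp only [Submodule.coe_smul]
        exact supp_homog hG r hr _)
      (fun r hr u => by
        simp only [Submodule.coe_smul]
        exact supp_homog hC r hr _) ?_
    intro v hv
    have h7 := h5 v hv
    have h8 := pow_eq_zero_iff (two_ne_zero) |>.1 h7.symm
    linarith
  refine eq_of_supp_eq hG hC fun u => ?_
  obtain ⟨σ, v, rfl⟩ := exists_decomp he u
  rw [supp_slab hG hGt, supp_slab hC hCt]
  have := h6 v
  rw [hg, hh] at this
  rw [this]

theorem integral_ball_inner (y : E) : ∫ u in ball (0 : E) 1, ⟪y, u⟫ = 0 := by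
  have := setIntegral_ball_neg (fun u : E => ⟪y, u⟫)
  simp only [inner_neg_right, integral_neg] at this
  linarith

theorem ballWidth_image_add {K : Set E} (hK : IsConvexCompact K) (y : E) :
    ballWidth ((fun x => x + y) '' K) = ballWidth K := by
  have h1 : ballWidth ((fun x => x + y) '' K) =
      ∫ u in ball (0 : E) 1, (supportFn K u + ⟪y, u⟫) := by
    unfold ballWidth
    congr 1
    ext u
    exact supp_image_add hK.1 hK.2.1 y u
  rw [h1, integral_add (supp_integrable hK) (integrableOn_ball (by fun_prop)),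
    integral_ball_inner, add_zero]
  rfl

/-- The rigidity theorem for compact convex sets. -/
theorem Good.main {H : Submodule ℝ E} {D : Set E → Set E} (hD : Good H D) {e : E} (he : ‖e‖ = 1)
    [Nontrivial (perp e)] (heH : e ∈ H) {K : Set E} (hK : IsConvexCompact K)
    (hKs : IsSymm H K) {y : E} (hy : y ∈ Hᗮ) :
    D ((fun x => x + y) '' K) = K := by
  have hK' := hK.image_add y
  have hG := hD.cc _ hK'
  symm
  refine eq_of_subset_of_ballWidth hK hG ?_ (by rw [hD.width _ hK', ballWidth_image_add hK])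
  intro x hx
  set C : Set E := K ∩ {z | ⟪e, z⟫ = ⟪e, x⟫} with hCdef
  have hxC : x ∈ C := ⟨hx, rfl⟩
  have hC : IsConvexCompact C :=
    ⟨⟨x, hxC⟩, hK.2.1.inter_right (slab_closed e _), hK.2.2.inter (slab_convex e _)⟩
  have hCs : IsSymm H C := by
    have h1 : ∀ z ∈ C, H.reflection z ∈ C := by
      rintro z ⟨hzK, hzt⟩
      refine ⟨?_, ?_⟩
      · rw [← hKs]; exact ⟨z, hzK, rfl⟩
      · change ⟪e, H.reflection z⟫ = _
        rw [← inner_reflection, H.reflection_mem_subspace_eq_self heH]
        exact hzt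
    apply Subset.antisymm
    · rintro _ ⟨z, hz, rfl⟩
      exact h1 z hz
    · intro z hz
      exact ⟨H.reflection z, h1 z hz, H.reflection_reflection z⟩
  have h1 := hD.fibre he heH hC (fun z hz => hz.2) hCs hy
  have h2 : D ((fun x => x + y) '' C) ⊆ D ((fun x => x + y) '' K) :=
    hD.mono _ _ (hC.image_add y) hK' (image_mono inter_subset_left)
  rw [h1] at h2
  exact h2 hxC

end Pool.Agent.helper70.MW
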