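import Pool.Agent.helper70.MW.Support

/-!
# Polar coordinates for positively homogeneous functions
-/

set_option autoImplicit false

open MeasureTheory Metric Set Module
open scoped RealInnerProductSpace Pointwise

namespace Pool.Agent.helper70.MW

variable {E : Type*} [NormedAddCommGroup E] [InnerProductSpace ℝ E] [FiniteDimensional ℝ E]
  [MeasurableSpace E] [BorelSpace E]

/-- Polar coordinates for a positively homogeneous function times a radial weight. -/
theorem integral_homogeneous [Nontrivial E] (φ : E → ℝ)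
    (hφ : ∀ r : ℝ, 0 < r → ∀ u, φ (r • u) = r * φ u) (ρ : ℝ → ℝ) :
    ∫ x, φ x * ρ ‖x‖ = (∫ u : sphere (0 : E) 1, φ u ∂(volume : Measure E).toSphere) *
      ∫ r : Ioi (0 : ℝ), (r : ℝ) * ρ r ∂(Measure.volumeIoiPow (finrank ℝ E - 1)) := by
  calc ∫ x, φ x * ρ ‖x‖ = ∫ x : ({(0)}ᶜ : Set E), φ x.1 * ρ ‖x.1‖
        ∂((volume : Measure E).comap (↑)) := by
        rw [integral_subtype_comap (measurableSet_singleton _).compl fun x ↦ φ x * ρ ‖x‖,
          restrict_compl_singleton]
    _ = ∫ p : sphere (0 : E) 1 × Ioi (0 : ℝ), φ p.1 * ((p.2 : ℝ) * ρ p.2)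
          ∂(volume : Measure E).toSphere.prod (.volumeIoiPow (finrank ℝ E - 1)) := by
        rw [← (volume : Measure E).measurePreserving_homeomorphUnitSphereProd.integral_comp
          (Homeomorph.measurableEmbedding _)
          (fun p : sphere (0 : E) 1 × Ioi (0 : ℝ) => φ p.1 * ((p.2 : ℝ) * ρ p.2))]
        congr 1
        ext x
        have hx : (x : E) ≠ 0 := x.2
        have hn : 0 < ‖(x : E)‖ := norm_pos_iff.2 hx
        simp only [homeomorphUnitSphereProd_apply_fst_coe, homeomorphUnitSphereProd_apply_snd_coe]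
        have h1 := hφ ‖(x : E)‖⁻¹ (inv_pos.2 hn) (x : E)
        rw [h1]
        field_simp
    _ = _ := by
        rw [integral_prod_mul (fun u : sphere (0 : E) 1 => φ u)
          (fun r : Ioi (0 : ℝ) => (r : ℝ) * ρ r)]

/-- If a positively homogeneous function integrates to zero against one (nontrivial) radial
weight, it does so against every radial weight. -/
theorem integral_homogeneous_zero [Nontrivial E] (φ : E → ℝ)
    (hφ : ∀ r : ℝ, 0 < r → ∀ u, φ (r • u) = r * φ u) (ρ₁ ρ₂ : ℝ → ℝ)
    (h1 : ∫ x : E, ‖x‖ * ρ₁ ‖x‖ ≠ 0) (h0 : ∫ x, φ x * ρ₁ ‖x‖ = 0) :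
    ∫ x, φ x * ρ₂ ‖x‖ = 0 := by
  rw [integral_homogeneous (fun x : E => ‖x‖) (fun r hr u => by
    rw [norm_smul, Real.norm_eq_abs, abs_of_pos hr])] at h1
  rw [integral_homogeneous φ hφ] at h0 ⊢
  have h2 := right_ne_zero_of_mul h1
  rcases mul_eq_zero.1 h0 with h | h
  · rw [h, zero_mul]
  · exact absurd h h2

/-- The integral of the support function over the unit ball. -/
noncomputable def ballWidth (K : Set E) : ℝ := ∫ x in ball (0 : E) 1, supportFn K x

theorem setIntegral_ball (f : E → ℝ) :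
    ∫ x in ball (0 : E) 1, f x = ∫ x, f x * (Iio (1 : ℝ)).indicator 1 ‖x‖ := by
  rw [← integral_indicator measurableSet_ball]
  congr 1
  ext x
  by_cases hx : ‖x‖ < 1
  · rw [indicator_of_mem (by simpa using hx), indicator_of_mem (by simpa using hx)]; simp
  · rw [indicator_of_notMem (by simpa using hx), indicator_of_notMem (by simpa using hx)]; simp

theorem integral_ball_norm_pos [Nontrivial E] : 0 < ∫ x in ball (0 : E) 1, ‖x‖ := by
  have hint : IntegrableOn (fun x : E => ‖x‖) (ball (0 : E) 1) :=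
    (continuous_norm.continuousOn.integrableOn_compact (isCompact_closedBall 0 1)).mono_set
      ball_subset_closedBall
  rw [setIntegral_pos_iff_support_of_nonneg_ae (Filter.Eventually.of_forall fun x => norm_nonneg x)
    hint]
  have hsup : Function.support (fun x : E => ‖x‖) = {0}ᶜ := by
    ext x; simp
  rw [hsup]
  have hopen : IsOpen (({0}ᶜ : Set E) ∩ ball 0 1) := isOpen_compl_singleton.inter isOpen_ball
  refine hopen.measure_pos _ ?_
  obtain ⟨v, hv⟩ := exists_norm_eq E (by norm_num : (0 : ℝ) ≤ 1 / 2)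
  refine ⟨v, ?_, ?_⟩
  · intro h
    have h' : v = 0 := h
    rw [h'] at hv; simp at hv
  · rw [mem_ball_zero_iff, hv]; norm_num

/-- The mean width is a positive constant times the integral over the ball. -/
theorem exists_meanWidth_const (n : ℕ) (hn : 1 ≤ n) :
    ∃ c : ℝ, c ≠ 0 ∧ ∀ K : Set (EuclideanSpace ℝ (Fin n)), IsConvexCompact K →
      ballWidth K = c * meanWidth K := by
  have : Nontrivial (EuclideanSpace ℝ (Fin n)) := by
    have : Nonempty (Fin n) := ⟨⟨0, hn⟩⟩
    infer_instance
  set κ := ∫ r : Ioi (0 : ℝ), (r : ℝ) * (Iio (1 : ℝ)).indicator 1 (r : ℝ)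
    ∂(Measure.volumeIoiPow (finrank ℝ (EuclideanSpace ℝ (Fin n)) - 1)) with hκ
  have hκ0 : κ ≠ 0 := by
    have h1 := (integral_ball_norm_pos (E := EuclideanSpace ℝ (Fin n))).ne'
    rw [setIntegral_ball, integral_homogeneous (fun x => ‖x‖) (fun r hr u => by
      rw [norm_smul, Real.norm_eq_abs, abs_of_pos hr])] at h1
    exact right_ne_zero_of_mul h1
  have hvol : 0 < (volume : Measure (EuclideanSpace ℝ (Fin n))).real (ball 0 1) :=
    ENNReal.toReal_pos (isOpen_ball.measure_pos _ ⟨0, by simp⟩).ne' measure_ball_lt_top.ne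
  have hn' : (0 : ℝ) < n := by exact_mod_cast hn
  refine ⟨κ * ((n * (volume : Measure (EuclideanSpace ℝ (Fin n))).real (ball 0 1)) / 2), ?_, ?_⟩
  · positivity
  · intro K hK
    rw [ballWidth, setIntegral_ball, integral_homogeneous (supportFn K)
      (fun r hr u => supp_smul_right hK.1 hK.2.1 hr.le u), meanWidth, ← hκ]
    field_simp

end Pool.Agent.helper70.MW
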