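import Pool.Agent.helper70.MW.Decomp

/-!
# Rigidity in the hyperplane
-/

set_option autoImplicit false
set_option linter.unusedSectionVars false
set_option linter.unusedVariables false

open MeasureTheory Metric Set Module Filter Topology
open scoped RealInnerProductSpace Pointwise

namespace Pool.Agent.helper70.MW

variable {E : Type*} [NormedAddCommGroup E] [InnerProductSpace ℝ E] [FiniteDimensional ℝ E]
  [MeasurableSpace E] [BorelSpace E]

theorem abs_sub_add_abs_add (a b : ℝ) : |a - b| + |a + b| = 2 * (|b| + max (|a| - |b|) 0) := by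
  rcases abs_cases a with ⟨h1, h1'⟩ | ⟨h1, h1'⟩ <;> rcases abs_cases b with ⟨h2, h2'⟩ | ⟨h2, h2'⟩ <;>
  rcases abs_cases (a - b) with ⟨h3, h3'⟩ | ⟨h3, h3'⟩ <;>
  rcases abs_cases (a + b) with ⟨h4, h4'⟩ | ⟨h4, h4'⟩ <;>
  rcases max_cases (|a| - |b|) 0 with ⟨h5, h5'⟩ | ⟨h5, h5'⟩ <;>
  rw [h3, h4, h5] <;> linarith

/-- Reflection in the hyperplane orthogonal to `e`. -/
theorem integral_abs_eq {e : E} (he : ‖e‖ = 1) {δ : E → ℝ} (hδ : Continuous δ)
    (hinv : ∀ (σ : ℝ) (v : perp e), δ (σ • e + (v : E)) = δ v) {n : ℝ} (hn : 0 ≤ n) :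
    ∫ x in ball (0 : E) 1, |δ x - n * ⟪e, x⟫| =
      (∫ x in ball (0 : E) 1, |n * ⟪e, x⟫|) + ∫ x in ball (0 : E) 1, tent e δ n x := by
  have hR : ∀ (σ : ℝ) (v : perp e), (perp e).reflection (σ • e + (v : E)) = (-σ) • e + (v : E) := by
    intro σ v
    rw [map_add, map_smul, Submodule.reflection_orthogonalComplement_singleton_eq_neg,
      Submodule.reflection_mem_subspace_eq_self v.2]
    simp
  have h1 : ∫ x in ball (0 : E) 1, |δ x - n * ⟪e, x⟫| =
      ∫ x in ball (0 : E) 1, |δ x + n * ⟪e, x⟫| := by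
    rw [← setIntegral_ball_isometry (perp e).reflection]
    congr 1
    ext x
    obtain ⟨σ, v, rfl⟩ := exists_decomp he x
    rw [hR, hinv, hinv, inner_decomp he, inner_decomp he]
    congr 1
    ring
  have hc1 : Continuous fun x : E => |δ x - n * ⟪e, x⟫| := by fun_prop
  have hc2 : Continuous fun x : E => |δ x + n * ⟪e, x⟫| := by fun_prop
  have hc3 : Continuous fun x : E => |n * ⟪e, x⟫| := by fun_prop
  have h2 : 2 * ∫ x in ball (0 : E) 1, |δ x - n * ⟪e, x⟫| =
      2 * ((∫ x in ball (0 : E) 1, |n * ⟪e, x⟫|) + ∫ x in ball (0 : E) 1, tent e δ n x) := by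
    calc 2 * ∫ x in ball (0 : E) 1, |δ x - n * ⟪e, x⟫|
        = (∫ x in ball (0 : E) 1, |δ x - n * ⟪e, x⟫|) +
          ∫ x in ball (0 : E) 1, |δ x + n * ⟪e, x⟫| := by rw [← h1]; ring
      _ = ∫ x in ball (0 : E) 1, (|δ x - n * ⟪e, x⟫| + |δ x + n * ⟪e, x⟫|) :=
          (integral_add (integrableOn_ball hc1) (integrableOn_ball hc2)).symm
      _ = ∫ x in ball (0 : E) 1, 2 * (|n * ⟪e, x⟫| + tent e δ n x) := by
          congr 1
          ext x
          rw [abs_sub_add_abs_add, tent, abs_mul n, abs_of_nonneg hn]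
      _ = _ := by
          rw [integral_const_mul, integral_add (integrableOn_ball hc3)
            (integrableOn_ball (tent_continuous hδ n))]
  linarith

/-- From the `L¹` inequality for all translates along the line to an `L²` inequality. -/
theorem sq_integral_le {e : E} (he : ‖e‖ = 1) {δ₁ δ₂ : E → ℝ} (h1 : Continuous δ₁)
    (h2 : Continuous δ₂) (hi1 : ∀ (σ : ℝ) (v : perp e), δ₁ (σ • e + (v : E)) = δ₁ v)
    (hi2 : ∀ (σ : ℝ) (v : perp e), δ₂ (σ • e + (v : E)) = δ₂ v)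
    (h : ∀ s : ℝ, ∫ x in ball (0 : E) 1, |δ₁ x - s * ⟪e, x⟫| ≤
      ∫ x in ball (0 : E) 1, |δ₂ x - s * ⟪e, x⟫|) :
    ∫ v in ball (0 : perp e) 1, δ₁ (v : E) ^ 2 ≤ ∫ v in ball (0 : perp e) 1, δ₂ (v : E) ^ 2 := by
  refine le_of_tendsto_of_tendsto' (tendsto_tent he h1 hi1) (tendsto_tent he h2 hi2) fun n => ?_
  have hn : (0 : ℝ) ≤ n := Nat.cast_nonneg n
  have h3 := h n
  rw [integral_abs_eq he h1 hi1 hn, integral_abs_eq he h2 hi2 hn] at h3
  exact mul_le_mul_of_nonneg_left (by linarith) hn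

/-- The chord length of the ball. -/
noncomputable def chord (r : ℝ) : ℝ := ∫ σ : ℝ, if σ ^ 2 + r ^ 2 < 1 then (1 : ℝ) else 0

theorem integral_ball_eq_chord {e : E} (he : ‖e‖ = 1) {ζ : E → ℝ} (hζ : Continuous ζ)
    (hinv : ∀ (σ : ℝ) (v : perp e), ζ (σ • e + (v : E)) = ζ v) :
    ∫ x in ball (0 : E) 1, ζ x = ∫ v : perp e, ζ v * chord ‖v‖ := by
  have hint : Integrable (fun p : ℝ × perp e => (ball (0 : E) 1).indicator ζ (decomp e he p))
      (volume.prod volume) := by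
    have h1 : Integrable ((ball (0 : E) 1).indicator ζ) :=
      (integrable_indicator_iff measurableSet_ball).2 (integrableOn_ball hζ)
    exact ((decomp_mp e he).integrable_comp_emb (decomp e he).measurableEmbedding).2 h1
  rw [← integral_indicator measurableSet_ball,
      ← (decomp_mp e he).integral_comp (decomp e he).measurableEmbedding,
      integral_prod_symm _ hint]
  congr 1
  ext v
  rw [chord, ← integral_const_mul]
  congr 1
  ext σ
  have hmem : decomp e he (σ, v) ∈ ball (0 : E) 1 ↔ σ ^ 2 + ‖v‖ ^ 2 < 1 := by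
    rw [decomp_apply, mem_ball_zero_iff, ← norm_sq_decomp he, sq_lt_one_iff₀ (norm_nonneg _)]
  by_cases h : σ ^ 2 + ‖v‖ ^ 2 < 1
  · rw [indicator_of_mem (hmem.2 h), if_pos h, decomp_apply, hinv, mul_one]
  · rw [indicator_of_notMem (fun hc => h (hmem.1 hc)), if_neg h, mul_zero]

theorem integral_norm_chord_ne_zero {e : E} (he : ‖e‖ = 1) [Nontrivial (perp e)] :
    ∫ v : perp e, ‖v‖ * chord ‖v‖ ≠ 0 := by
  let ζ : E → ℝ := fun x => ‖x - ⟪e, x⟫ • e‖
  have hζ : Continuous ζ := by fun_prop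
  have hζv : ∀ (σ : ℝ) (v : perp e), ζ (σ • e + (v : E)) = ‖v‖ := by
    intro σ v
    simp only [ζ, inner_decomp he, add_sub_cancel_left]
    rfl
  have hζ0 : ∀ v : perp e, ζ v = ‖v‖ := fun v => by
    have := hζv 0 v
    simpa using this
  have h1 := integral_ball_eq_chord he hζ (fun σ v => by rw [hζv, hζ0])
  have h2 : ∫ v : perp e, ‖v‖ * chord ‖v‖ = ∫ x in ball (0 : E) 1, ζ x := by
    rw [h1]
    congr 1
    ext v
    rw [hζ0]
  rw [h2]
  refine ne_of_gt ?_
  rw [setIntegral_pos_iff_support_of_nonneg_ae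
    (Filter.Eventually.of_forall fun x => norm_nonneg _) (integrableOn_ball hζ)]
  have hopen : IsOpen (Function.support ζ ∩ ball 0 1) :=
    (hζ.isOpen_support).inter isOpen_ball
  refine hopen.measure_pos _ ?_
  obtain ⟨v, hv⟩ := exists_norm_eq (perp e) (by norm_num : (0 : ℝ) ≤ 1 / 2)
  refine ⟨v, ?_, ?_⟩
  · rw [Function.mem_support, hζ0, hv]; norm_num
  · rw [mem_ball_zero_iff]
    change ‖v‖ < 1
    rw [hv]; norm_num

/-- Vanishing of the weighted mean. -/
theorem integral_norm_eq_zero {e : E} (he : ‖e‖ = 1) [Nontrivial (perp e)] {ζ : E → ℝ}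
    (hζ : Continuous ζ) (hhom : ∀ r : ℝ, 0 < r → ∀ u, ζ (r • u) = r * ζ u)
    (hinv : ∀ (σ : ℝ) (v : perp e), ζ (σ • e + (v : E)) = ζ v)
    (h0 : ∫ x in ball (0 : E) 1, ζ x = 0) :
    ∫ v in ball (0 : perp e) 1, ζ v * ‖v‖ = 0 := by
  rw [integral_ball_eq_chord he hζ hinv] at h0
  have h1 := integral_homogeneous_zero (fun v : perp e => ζ v)
    (fun r hr u => by simpa using hhom r hr u) chord
    (fun r => r * (Iio (1 : ℝ)).indicator 1 r) (integral_norm_chord_ne_zero he) h0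
  rw [setIntegral_ball]
  simpa [mul_assoc] using h1

end Pool.Agent.helper70.MW
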