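import Pool.Agent.helper70.MW.Defs

/-!
# Support functions
-/

set_option autoImplicit false

open MeasureTheory Metric Set
open scoped RealInnerProductSpace Pointwise

namespace Pool.Agent.helper70.MW

variable {E : Type*} [NormedAddCommGroup E] [InnerProductSpace ℝ E]

theorem IsConvexBody.convexCompact {K : Set E} (h : IsConvexBody K) : IsConvexCompact K :=
  ⟨h.2.2.mono interior_subset, h.1, h.2.1⟩

theorem supp_bddAbove {K : Set E} (hK : IsCompact K) (u : E) :
    BddAbove ((fun x => ⟪x, u⟫) '' K) :=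
  (hK.image (by fun_prop)).bddAbove

theorem le_supp {K : Set E} (hK : IsCompact K) {x : E} (hx : x ∈ K) (u : E) :
    ⟪x, u⟫ ≤ supportFn K u :=
  le_csSup (supp_bddAbove hK u) ⟨x, hx, rfl⟩

theorem supp_le {K : Set E} (hne : K.Nonempty) {u : E} {c : ℝ} (h : ∀ x ∈ K, ⟪x, u⟫ ≤ c) :
    supportFn K u ≤ c := by
  refine csSup_le (hne.image _) ?_
  rintro _ ⟨x, hx, rfl⟩
  exact h x hx

theorem exists_supp {K : Set E} (hK : IsCompact K) (hne : K.Nonempty) (u : E) :
    ∃ x ∈ K, ⟪x, u⟫ = supportFn K u := by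
  have h := (hK.image (f := fun x => ⟪x, u⟫) (by fun_prop)).sSup_mem (hne.image _)
  obtain ⟨x, hx, hxu⟩ := h
  exact ⟨x, hx, hxu⟩

theorem supp_mono {K L : Set E} (hne : K.Nonempty) (hL : IsCompact L) (h : K ⊆ L) (u : E) :
    supportFn K u ≤ supportFn L u :=
  supp_le hne fun _ hx => le_supp hL (h hx) u

theorem supp_add_le {K : Set E} (hne : K.Nonempty) (hK : IsCompact K) (u v : E) :
    supportFn K (u + v) ≤ supportFn K u + supportFn K v :=
  supp_le hne fun x hx => by
    rw [inner_add_right]
    exact add_le_add (le_supp hK hx u) (le_supp hK hx v)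

theorem supp_smul_right {K : Set E} (hne : K.Nonempty) (hK : IsCompact K) {r : ℝ} (hr : 0 ≤ r)
    (u : E) : supportFn K (r • u) = r * supportFn K u := by
  apply le_antisymm
  · refine supp_le hne fun x hx => ?_
    rw [inner_smul_right]
    exact mul_le_mul_of_nonneg_left (le_supp hK hx u) hr
  · obtain ⟨x, hx, hxu⟩ := exists_supp hK hne u
    rw [← hxu, ← inner_smul_right]
    exact le_supp hK hx _

theorem supp_zero {K : Set E} (hne : K.Nonempty) (hK : IsCompact K) : supportFn K 0 = 0 := by
  have := supp_smul_right hne hK (le_refl 0) (0 : E)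
  simpa using this

theorem supp_smul_set {K : Set E} (hne : K.Nonempty) (hK : IsCompact K) {r : ℝ} (hr : 0 ≤ r)
    (u : E) : supportFn (r • K) u = r * supportFn K u := by
  apply le_antisymm
  · refine supp_le (hne.image _) ?_
    rintro _ ⟨x, hx, rfl⟩
    simp only [inner_smul_left, RCLike.conj_to_real]
    exact mul_le_mul_of_nonneg_left (le_supp hK hx u) hr
  · obtain ⟨x, hx, hxu⟩ := exists_supp hK hne u
    rw [← hxu]
    have h1 := le_supp (hK.image (f := fun x => r • x) (by fun_prop)) ⟨x, hx, rfl⟩ u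
    simp only [inner_smul_left, RCLike.conj_to_real] at h1
    exact h1

theorem supp_neg_set (K : Set E) (u : E) : supportFn (-K) u = supportFn K (-u) := by
  unfold supportFn
  congr 1
  ext y
  constructor
  · rintro ⟨x, hx, rfl⟩
    exact ⟨-x, hx, by simp⟩
  · rintro ⟨x, hx, rfl⟩
    exact ⟨-x, by simpa using hx, by simp⟩

theorem supp_add_set {K L : Set E} (hKn : K.Nonempty) (hK : IsCompact K) (hLn : L.Nonempty)
    (hL : IsCompact L) (u : E) : supportFn (K + L) u = supportFn K u + supportFn L u := by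
  apply le_antisymm
  · refine supp_le (hKn.add hLn) ?_
    rintro _ ⟨x, hx, y, hy, rfl⟩
    rw [inner_add_left]
    exact add_le_add (le_supp hK hx u) (le_supp hL hy u)
  · obtain ⟨x, hx, hxu⟩ := exists_supp hK hKn u
    obtain ⟨y, hy, hyu⟩ := exists_supp hL hLn u
    rw [← hxu, ← hyu, ← inner_add_left]
    exact le_supp (hK.add hL) (add_mem_add hx hy) u

theorem supp_image_add {K : Set E} (hne : K.Nonempty) (hK : IsCompact K) (y u : E) :
    supportFn ((fun x => x + y) '' K) u = supportFn K u + ⟪y, u⟫ := by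
  apply le_antisymm
  · refine supp_le (hne.image _) ?_
    rintro _ ⟨x, hx, rfl⟩
    simp only [inner_add_left]
    have := le_supp hK hx u
    linarith
  · obtain ⟨x, hx, hxu⟩ := exists_supp hK hne u
    rw [← hxu, ← inner_add_left]
    exact le_supp (hK.image (f := fun x => x + y) (by fun_prop)) ⟨x, hx, rfl⟩ u

theorem supp_image_isometry {K : Set E} (R : E ≃ₗᵢ[ℝ] E) (u : E) :
    supportFn (R '' K) u = supportFn K (R.symm u) := by
  unfold supportFn
  congr 1
  ext y
  constructor
  · rintro ⟨_, ⟨x, hx, rfl⟩, rfl⟩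
    refine ⟨x, hx, ?_⟩
    change ⟪x, R.symm u⟫ = ⟪R x, u⟫
    rw [← R.inner_map_map x (R.symm u), R.apply_symm_apply]
  · rintro ⟨x, hx, rfl⟩
    refine ⟨R x, ⟨x, hx, rfl⟩, ?_⟩
    change ⟪R x, u⟫ = ⟪x, R.symm u⟫
    rw [← R.inner_map_map x (R.symm u), R.apply_symm_apply]

/-- The closed convex hull. -/
def hull (S : Set E) : Set E := closure (convexHull ℝ S)

theorem subset_hull (S : Set E) : S ⊆ hull S := (subset_convexHull ℝ S).trans subset_closure

theorem hull_min {S L : Set E} (h : S ⊆ L) (hL : Convex ℝ L) (hLc : IsClosed L) : hull S ⊆ L :=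
  closure_minimal (convexHull_min h hL) hLc

theorem hull_convexCompact [ProperSpace E] {S : Set E} (hne : S.Nonempty) (hS : IsCompact S) :
    IsConvexCompact (hull S) :=
  ⟨hne.mono (subset_hull S), (isBounded_convexHull.2 hS.isBounded).isCompact_closure, (convex_convexHull ℝ S).closure⟩

theorem supp_hull {K : Set E} (hne : K.Nonempty) (hK : IsCompact K)
    (hK' : IsCompact (hull K)) (u : E) :
    supportFn (hull K) u = supportFn K u := by
  apply le_antisymm
  · refine supp_le (hne.mono (subset_hull K)) fun x hx => ?_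
    have hlin : {x : E | ⟪x, u⟫ ≤ supportFn K u} = {x | (innerₛₗ ℝ u) x ≤ supportFn K u} := by
      ext x; simp [real_inner_comm]
    have hsub : hull K ⊆ {x | ⟪x, u⟫ ≤ supportFn K u} := by
      apply hull_min
      · intro y hy; exact le_supp hK hy u
      · rw [hlin]
        exact convex_halfSpace_le (innerₛₗ ℝ u).isLinear _
      · exact isClosed_le (by fun_prop) continuous_const
    exact hsub hx
  · exact supp_mono hne hK' (subset_hull K) u

theorem supp_union {K L : Set E} (hKn : K.Nonempty) (hK : IsCompact K) (hLn : L.Nonempty)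
    (hL : IsCompact L) (u : E) :
    supportFn (K ∪ L) u = max (supportFn K u) (supportFn L u) := by
  apply le_antisymm
  · refine supp_le (hKn.mono subset_union_left) ?_
    rintro x (hx | hx)
    · exact (le_supp hK hx u).trans (le_max_left _ _)
    · exact (le_supp hL hx u).trans (le_max_right _ _)
  · exact max_le (supp_mono hKn (hK.union hL) subset_union_left u)
      (supp_mono hLn (hK.union hL) subset_union_right u)

theorem supp_lipschitz {K : Set E} (hne : K.Nonempty) (hK : IsCompact K) :
    ∃ ρ : NNReal, LipschitzWith ρ (supportFn K) := by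
  obtain ⟨ρ, hρ⟩ := hK.isBounded.exists_norm_le
  have hρ0 : 0 ≤ ρ := by
    obtain ⟨x, hx⟩ := hne
    exact (norm_nonneg x).trans (hρ x hx)
  refine ⟨⟨ρ, hρ0⟩, LipschitzWith.of_le_add_mul _ fun u v => ?_⟩
  refine supp_le hne fun x hx => ?_
  have h1 : ⟪x, u⟫ = ⟪x, v⟫ + ⟪x, u - v⟫ := by rw [← inner_add_right]; congr 1; abel
  have h2 : ⟪x, u - v⟫ ≤ ρ * dist u v := by
    calc ⟪x, u - v⟫ ≤ ‖x‖ * ‖u - v‖ := real_inner_le_norm _ _
      _ ≤ ρ * dist u v := by
          rw [dist_eq_norm]
          exact mul_le_mul_of_nonneg_right (hρ x hx) (norm_nonneg _)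
  rw [h1]
  exact add_le_add (le_supp hK hx v) h2

theorem supp_continuous {K : Set E} (hne : K.Nonempty) (hK : IsCompact K) :
    Continuous (supportFn K) := by
  obtain ⟨ρ, hρ⟩ := supp_lipschitz hne hK
  exact hρ.continuous

theorem subset_of_supp_le [CompleteSpace E] {K L : Set E} (hK : IsCompact K)
    (hL : IsCompact L) (hLc : Convex ℝ L) (hLn : L.Nonempty)
    (h : ∀ u, supportFn K u ≤ supportFn L u) : K ⊆ L := by
  intro x hx
  by_contra hxL
  obtain ⟨f, s, hs, hfx⟩ := geometric_hahn_banach_closed_point hLc hL.isClosed hxL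
  let u := (InnerProductSpace.toDual ℝ E).symm f
  have hu : ∀ y, f y = ⟪y, u⟫ := fun y => by
    rw [real_inner_comm]; exact (InnerProductSpace.toDual_symm_apply).symm
  have h1 : supportFn L u ≤ s := supp_le hLn fun y hy => by rw [← hu]; exact (hs y hy).le
  have h2 : f x ≤ supportFn K u := by rw [hu]; exact le_supp hK hx u
  have := h u
  linarith

theorem eq_of_supp_eq [CompleteSpace E] {K L : Set E} (hK : IsConvexCompact K)
    (hL : IsConvexCompact L) (h : ∀ u, supportFn K u = supportFn L u) : K = L :=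
  Subset.antisymm (subset_of_supp_le hK.2.1 hL.2.1 hL.2.2 hL.1 fun u => (h u).le)
    (subset_of_supp_le hL.2.1 hK.2.1 hK.2.2 hK.1 fun u => (h u).ge)

end Pool.Agent.helper70.MW
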