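import Pool.Agent.helper70.MW.Polar

/-!
# Properties of the integral of the support function over the ball
-/

set_option autoImplicit false
set_option linter.unusedSectionVars false
set_option linter.unusedVariables false

open MeasureTheory Metric Set Module
open scoped RealInnerProductSpace Pointwise

namespace Pool.Agent.helper70.MW

variable {E : Type*} [NormedAddCommGroup E] [InnerProductSpace ℝ E] [FiniteDimensional ℝ E]
  [MeasurableSpace E] [BorelSpace E]

theorem integrableOn_ball {f : E → ℝ} (hf : Continuous f) : IntegrableOn f (ball (0 : E) 1) :=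
  (hf.continuousOn.integrableOn_compact (isCompact_closedBall 0 1)).mono_set
    ball_subset_closedBall

theorem supp_integrable {K : Set E} (hK : IsConvexCompact K) :
    IntegrableOn (supportFn K) (ball (0 : E) 1) := integrableOn_ball (supp_continuous hK.1 hK.2.1)

theorem ballWidth_mono {K L : Set E} (hK : IsConvexCompact K) (hL : IsConvexCompact L)
    (h : K ⊆ L) : ballWidth K ≤ ballWidth L :=
  setIntegral_mono (supp_integrable hK) (supp_integrable hL) fun u => supp_mono hK.1 hL.2.1 h u

/-- Two continuous functions which are ordered on the ball and have the same integral agree. -/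
theorem eqOn_ball_of_integral {f g : E → ℝ} (hf : Continuous f) (hg : Continuous g)
    (hfg : ∀ x ∈ ball (0 : E) 1, f x ≤ g x)
    (h : ∫ x in ball (0 : E) 1, g x ≤ ∫ x in ball (0 : E) 1, f x) :
    ∀ x ∈ ball (0 : E) 1, f x = g x := by
  have hd : ∀ x ∈ ball (0 : E) 1, 0 ≤ g x - f x := fun x hx => sub_nonneg.2 (hfg x hx)
  have hint : IntegrableOn (fun x => g x - f x) (ball (0 : E) 1) := integrableOn_ball (hg.sub hf)
  have h0 : ∫ x in ball (0 : E) 1, (g x - f x) = 0 := by
    apply le_antisymm
    · rw [integral_sub (integrableOn_ball hg) (integrableOn_ball hf)]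
      linarith
    · exact setIntegral_nonneg measurableSet_ball hd
  have hae : (fun x => g x - f x) =ᵐ[volume.restrict (ball (0 : E) 1)] 0 := by
    refine (setIntegral_eq_zero_iff_of_nonneg_ae ?_ hint).1 h0
    filter_upwards [ae_restrict_mem measurableSet_ball] with x hx using hd x hx
  have := Measure.eqOn_open_of_ae_eq hae isOpen_ball (hg.sub hf).continuousOn
    continuousOn_const
  intro x hx
  have h1 := this hx
  simp only [Pi.zero_apply] at h1
  linarith

/-- Positively homogeneous functions which agree on the unit ball agree. -/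
theorem eq_of_eqOn_ball {f g : E → ℝ} (hf : ∀ r : ℝ, 0 < r → ∀ u, f (r • u) = r * f u)
    (hg : ∀ r : ℝ, 0 < r → ∀ u, g (r • u) = r * g u)
    (h : ∀ x ∈ ball (0 : E) 1, f x = g x) (x : E) : f x = g x := by
  have hr : (0 : ℝ) < (‖x‖ + 1)⁻¹ := by positivity
  have h1 := h ((‖x‖ + 1)⁻¹ • x) (by
    rw [mem_ball_zero_iff, norm_smul, Real.norm_eq_abs, abs_of_pos hr,
      inv_mul_lt_iff₀ (by positivity)]
    linarith)
  rw [hf _ hr, hg _ hr] at h1
  exact mul_left_cancel₀ hr.ne' h1

theorem supp_homog {K : Set E} (hK : IsConvexCompact K) :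
    ∀ r : ℝ, 0 < r → ∀ u, supportFn K (r • u) = r * supportFn K u :=
  fun r hr u => supp_smul_right hK.1 hK.2.1 hr.le u

theorem eq_of_subset_of_ballWidth {K L : Set E} (hK : IsConvexCompact K)
    (hL : IsConvexCompact L) (h : K ⊆ L) (hW : ballWidth L ≤ ballWidth K) : K = L := by
  have h1 := eqOn_ball_of_integral (supp_continuous hK.1 hK.2.1) (supp_continuous hL.1 hL.2.1)
    (fun x _ => supp_mono hK.1 hL.2.1 h x) hW
  exact eq_of_supp_eq hK hL (eq_of_eqOn_ball (supp_homog hK) (supp_homog hL) h1)

/-- Integrals over the ball are invariant under linear isometries. -/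
theorem setIntegral_ball_isometry (R : E ≃ₗᵢ[ℝ] E) (f : E → ℝ) :
    ∫ x in ball (0 : E) 1, f (R x) = ∫ x in ball (0 : E) 1, f x := by
  have h1 := R.measurePreserving.setIntegral_preimage_emb
    R.toHomeomorph.measurableEmbedding f (ball (0 : E) 1)
  have h2 : R ⁻¹' ball (0 : E) 1 = ball 0 1 := by
    ext x; simp
  rw [h2] at h1
  exact h1

theorem setIntegral_ball_neg (f : E → ℝ) :
    ∫ x in ball (0 : E) 1, f (-x) = ∫ x in ball (0 : E) 1, f x :=
  setIntegral_ball_isometry (LinearIsometryEquiv.neg ℝ) f

theorem IsConvexCompact.image_add {K : Set E} (hK : IsConvexCompact K) (y : E) :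
    IsConvexCompact ((fun x => x + y) '' K) :=
  ⟨hK.1.image _, hK.2.1.image (by fun_prop), by
    have := hK.2.2.translate y
    simpa [add_comm] using this⟩

end Pool.Agent.helper70.MW
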